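import Mathlib

/-!
# Integers with `k` divisors, `k ≡ 2 (mod 4)` (MP_685530_nt)

* `eq_prime_mul_sq`: a positive integer whose number of divisors is `2 (mod 4)` and in which the
  prime `p` occurs with an odd exponent is `p * r ^ 2`.
* Descent lemmas for the equations `T² = 24 y² + 1` and `3 b² = 2 a² + 1`.
-/

set_option autoImplicit false

namespace Pool.Agent.Lib.P685530

/-! ### Shape of the integers -/

theorem exists_pow {n j : ℕ} (hn : n ≠ 0) (h : ∀ p, j ∣ n.factorization p) : ∃ c, n = c ^ j := by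
  refine ⟨n.factorization.prod fun p e => p ^ (e / j), ?_⟩
  conv_lhs => rw [← Nat.prod_factorization_pow_eq_self hn]
  unfold Finsupp.prod
  rw [← Finset.prod_pow]
  refine Finset.prod_congr rfl fun p _ => ?_
  rw [← pow_mul, Nat.div_mul_cancel (h p)]

theorem succ_dvd_card {n q : ℕ} (hn : n ≠ 0) : n.factorization q + 1 ∣ n.divisors.card := by
  rw [Nat.card_divisors hn]
  by_cases hq : q ∈ n.primeFactors
  · exact Finset.dvd_prod_of_mem (fun p => n.factorization p + 1) hq
  · have : n.factorization q = 0 := by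
      rw [← Nat.support_factorization] at hq
      exact Finsupp.notMem_support_iff.1 hq
    rw [this, zero_add]
    exact one_dvd _

/-- splitting off a prime -/
theorem split_prime {n p : ℕ} (hn : n ≠ 0) (hp : p.Prime) :
    ∃ m : ℕ, m ≠ 0 ∧ n = p ^ n.factorization p * m ∧
      n.divisors.card = (n.factorization p + 1) * m.divisors.card := by
  refine ⟨n / p ^ n.factorization p, ?_, ?_, ?_⟩
  · exact (Nat.ordCompl_pos p hn).ne'
  · exact (Nat.ordProj_mul_ordCompl_eq_self n p).symm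
  · have h1 : (p ^ n.factorization p).Coprime (n / p ^ n.factorization p) :=
      Nat.Coprime.pow_left _ (Nat.coprime_ordCompl hp hn)
    conv_lhs => rw [← Nat.ordProj_mul_ordCompl_eq_self n p]
    rw [h1.card_divisors_mul, Nat.divisors_prime_pow hp]
    simp

theorem exists_odd {n : ℕ} (hn : n ≠ 0) (h : n.divisors.card % 2 = 0) :
    ∃ p, p.Prime ∧ n.factorization p % 2 = 1 := by
  by_contra hcon
  push Not at hcon
  have h1 : ∀ p, 2 ∣ n.factorization p := by
    intro p
    by_cases hp : p.Prime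
    · have := hcon p hp
      omega
    · rw [Nat.factorization_eq_zero_of_not_prime n hp]
      exact dvd_zero 2
  have h2 : ∀ s : Finset ℕ, (∏ p ∈ s, (n.factorization p + 1)) % 2 = 1 := by
    intro s
    induction s using Finset.induction_on with
    | empty => rfl
    | insert a s ha ih =>
      rw [Finset.prod_insert ha, Nat.mul_mod, ih]
      have := h1 a
      omega
  rw [Nat.card_divisors hn] at h
  have := h2 n.primeFactors
  omega

theorem eq_prime_mul_sq {n p : ℕ} (hn : n ≠ 0) (hp : p.Prime) (h4 : n.divisors.card % 4 = 2)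
    (hodd : n.factorization p % 2 = 1) : ∃ r, n = p * r ^ 2 := by
  obtain ⟨m, hm, h1, h2⟩ := split_prime hn hp
  have h3 : m.divisors.card % 2 = 1 := by
    by_contra hcon
    obtain ⟨a, ha⟩ : 2 ∣ n.factorization p + 1 := by omega
    obtain ⟨b, hb⟩ : 2 ∣ m.divisors.card := by omega
    rw [h2, ha, hb] at h4
    have : 2 * a * (2 * b) % 4 = 0 := by
      have : 2 * a * (2 * b) = 4 * (a * b) := by ring
      omega
    omega
  obtain ⟨s, hs⟩ : ∃ s, m = s ^ 2 := by
    apply exists_pow hm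
    intro q
    obtain ⟨c, hc⟩ := succ_dvd_card (q := q) hm
    by_contra hcon
    obtain ⟨b, hb⟩ : 2 ∣ m.factorization q + 1 := by omega
    rw [hc, hb, mul_assoc] at h3
    omega
  obtain ⟨f, hf⟩ : ∃ f, n.factorization p = 2 * f + 1 := ⟨n.factorization p / 2, by omega⟩
  refine ⟨p ^ f * s, ?_⟩
  rw [hf, hs] at h1
  rw [h1]
  ring

theorem exists_prime_mul_sq {n : ℕ} (hn : n ≠ 0) (h4 : n.divisors.card % 4 = 2) :
    ∃ p r, p.Prime ∧ n = p * r ^ 2 := by
  obtain ⟨p, hp, h1⟩ := exists_odd hn (by omega)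
  obtain ⟨r, hr⟩ := eq_prime_mul_sq hn hp h4 h1
  exact ⟨p, r, hp, hr⟩

theorem factorization_eq_one {n p : ℕ} (hp : p.Prime) (h1 : p ∣ n) (h2 : ¬ p ^ 2 ∣ n) :
    n.factorization p = 1 := by
  have hn : n ≠ 0 := by
    rintro rfl
    exact h2 (dvd_zero _)
  have h3 : 1 ≤ n.factorization p := by
    rw [← hp.pow_dvd_iff_le_factorization hn, pow_one]
    exact h1
  have h4 : ¬ 2 ≤ n.factorization p := by
    rw [← hp.pow_dvd_iff_le_factorization hn]
    exact h2
  omega

/-- an integer divisible exactly once by `p` is `p` times a square -/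
theorem eq_mul_sq_of_exact {n p : ℕ} (hp : p.Prime) (h1 : p ∣ n) (h2 : ¬ p ^ 2 ∣ n)
    (h4 : n.divisors.card % 4 = 2) : ∃ r, n = p * r ^ 2 := by
  have hn : n ≠ 0 := by
    rintro rfl
    exact h2 (dvd_zero _)
  apply eq_prime_mul_sq hn hp h4
  rw [factorization_eq_one hp h1 h2]

/-! ### Squares -/

theorem sq_of_mul {a b c : ℕ} (h : a.Coprime b) (h2 : a * b = c ^ 2) : ∃ d, a = d ^ 2 := by
  apply exists_eq_pow_of_mul_eq_pow (b := b) (c := c) _ h2
  rw [Nat.isUnit_iff]
  exact h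

theorem sq_of_mul' {a b c : ℕ} (h : a.Coprime b) (h2 : a * b = c ^ 2) : ∃ d, b = d ^ 2 :=
  sq_of_mul h.symm (by rw [mul_comm]; exact h2)

theorem eq_of_sq {a b : ℕ} (h : a ^ 2 = b ^ 2) : a = b := by
  exact Nat.pow_left_injective (n := 2) (by norm_num) h

/-- `N` is a prime times a square -/
def PS (N : ℕ) : Prop := ∃ p r, p.Prime ∧ N = p * r ^ 2

theorem PS.split {u v : ℕ} (h : u.Coprime v) (hPS : PS (u * v)) :
    (∃ s, u = s ^ 2 ∧ PS v) ∨ (∃ t, v = t ^ 2 ∧ PS u) := by
  obtain ⟨p, r, hp, h1⟩ := hPS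
  have h2 : p ∣ u * v := ⟨r ^ 2, h1⟩
  rcases hp.dvd_mul.1 h2 with h3 | h3
  · obtain ⟨u', rfl⟩ := h3
    right
    have h4 : u' * v = r ^ 2 := by
      have h5 : p * (u' * v) = p * r ^ 2 := by rw [← h1]; ring
      exact Nat.eq_of_mul_eq_mul_left hp.pos h5
    have h5 : u'.Coprime v := Nat.Coprime.coprime_mul_left h
    obtain ⟨t, ht⟩ := sq_of_mul' h5 h4
    obtain ⟨s, hs⟩ := sq_of_mul h5 h4
    exact ⟨t, ht, p, s, hp, by rw [hs]⟩
  · obtain ⟨v', rfl⟩ := h3
    left
    have h4 : u * v' = r ^ 2 := by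
      have h5 : p * (u * v') = p * r ^ 2 := by rw [← h1]; ring
      exact Nat.eq_of_mul_eq_mul_left hp.pos h5
    have h5 : u.Coprime v' := Nat.Coprime.coprime_mul_left_right h
    obtain ⟨s, hs⟩ := sq_of_mul h5 h4
    obtain ⟨t, ht⟩ := sq_of_mul' h5 h4
    exact ⟨s, hs, p, t, hp, by rw [ht]⟩

theorem PS.of_four {N : ℕ} (h : PS (4 * N)) : PS N := by
  obtain ⟨p, r, hp, h1⟩ := h
  have h2 : 2 ∣ r := by
    by_contra hr
    have hr2 : r ^ 2 % 4 = 1 := by
      have : r % 4 = 1 ∨ r % 4 = 3 := by omega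
      rcases this with h | h <;> simp [pow_two, Nat.mul_mod, h]
    have h3 : 4 ∣ p * r ^ 2 := ⟨N, h1.symm⟩
    have h4 : Nat.Coprime 4 (r ^ 2) := by
      rw [Nat.coprime_comm, show (4 : ℕ) = 2 ^ 2 by norm_num]
      apply Nat.Coprime.pow
      rw [Nat.coprime_comm, Nat.Prime.coprime_iff_not_dvd Nat.prime_two]
      exact hr
    have h5 : 4 ∣ p := h4.dvd_of_dvd_mul_right h3
    have h6 : (2 : ℕ) ∣ p := dvd_trans (by norm_num) h5
    rw [Nat.prime_dvd_prime_iff_eq Nat.prime_two hp] at h6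
    omega
  obtain ⟨s, rfl⟩ := h2
  refine ⟨p, s, hp, ?_⟩
  have h3 : 4 * N = 4 * (p * s ^ 2) := by rw [h1]; ring
  omega

/-- coprime factors of six times a square -/
theorem split_six {a b y : ℕ} (h : a.Coprime b) (h2 : a * b = 6 * y ^ 2) :
    (∃ p q, y = p * q ∧ a = p ^ 2 ∧ b = 6 * q ^ 2) ∨ (∃ p q, y = p * q ∧ a = 6 * p ^ 2 ∧ b = q ^ 2) ∨
    (∃ p q, y = p * q ∧ a = 2 * p ^ 2 ∧ b = 3 * q ^ 2) ∨
    (∃ p q, y = p * q ∧ a = 3 * p ^ 2 ∧ b = 2 * q ^ 2) := by
  have fin : ∀ {a' b' : ℕ}, a'.Coprime b' → a' * b' = y ^ 2 →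
      ∃ p q, y = p * q ∧ a' = p ^ 2 ∧ b' = q ^ 2 := by
    intro a' b' h3 h4
    obtain ⟨p, hp⟩ := sq_of_mul h3 h4
    obtain ⟨q, hq⟩ := sq_of_mul' h3 h4
    refine ⟨p, q, ?_, hp, hq⟩
    apply eq_of_sq
    rw [← h4, hp, hq]
    ring
  have h22 : 2 ∣ a * b := ⟨3 * y ^ 2, by rw [h2]; ring⟩
  have h33 : 3 ∣ a * b := ⟨2 * y ^ 2, by rw [h2]; ring⟩
  rcases Nat.prime_two.dvd_mul.1 h22 with ha | hb
  · rcases Nat.prime_three.dvd_mul.1 h33 with ha3 | hb3
    · obtain ⟨a', rfl⟩ : 6 ∣ a := Nat.Coprime.mul_dvd_of_dvd_of_dvd (by norm_num : Nat.Coprime 2 3) ha ha3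
      have h4 : a' * b = y ^ 2 := by
        have : 6 * (a' * b) = 6 * y ^ 2 := by rw [← h2]; ring
        omega
      obtain ⟨p, q, h5, h6, h7⟩ := fin (Nat.Coprime.coprime_mul_left h) h4
      exact Or.inr (Or.inl ⟨p, q, h5, by rw [h6], h7⟩)
    · obtain ⟨a', rfl⟩ := ha
      obtain ⟨b', rfl⟩ := hb3
      have h4 : a' * b' = y ^ 2 := by
        have : 6 * (a' * b') = 6 * y ^ 2 := by rw [← h2]; ring
        omega
      obtain ⟨p, q, h5, h6, h7⟩ :=
        fin (Nat.Coprime.coprime_mul_left (Nat.Coprime.coprime_mul_left_right h)) h4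
      exact Or.inr (Or.inr (Or.inl ⟨p, q, h5, by rw [h6], by rw [h7]⟩))
  · rcases Nat.prime_three.dvd_mul.1 h33 with ha3 | hb3
    · obtain ⟨a', rfl⟩ := ha3
      obtain ⟨b', rfl⟩ := hb
      have h4 : a' * b' = y ^ 2 := by
        have : 6 * (a' * b') = 6 * y ^ 2 := by rw [← h2]; ring
        omega
      obtain ⟨p, q, h5, h6, h7⟩ :=
        fin (Nat.Coprime.coprime_mul_left (Nat.Coprime.coprime_mul_left_right h)) h4
      exact Or.inr (Or.inr (Or.inr ⟨p, q, h5, by rw [h6], by rw [h7]⟩))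
    · obtain ⟨b', rfl⟩ : 6 ∣ b := Nat.Coprime.mul_dvd_of_dvd_of_dvd (by norm_num : Nat.Coprime 2 3) hb hb3
      have h4 : a * b' = y ^ 2 := by
        have : 6 * (a * b') = 6 * y ^ 2 := by rw [← h2]; ring
        omega
      obtain ⟨p, q, h5, h6, h7⟩ := fin (Nat.Coprime.coprime_mul_left_right h) h4
      exact Or.inl ⟨p, q, h5, h6, by rw [h7]⟩

/-! ### The equation `T² = 24 y² + 1` -/

theorem sq_mod_three (n : ℕ) : n ^ 2 % 3 = 0 ∨ n ^ 2 % 3 = 1 := by
  have : n % 3 = 0 ∨ n % 3 = 1 ∨ n % 3 = 2 := by omega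
  rcases this with h | h | h <;> simp [pow_two, Nat.mul_mod, h]

theorem sq_mod_eight_of_odd {n : ℕ} (h : n % 2 = 1) : n ^ 2 % 8 = 1 := by
  have : n % 8 = 1 ∨ n % 8 = 3 ∨ n % 8 = 5 ∨ n % 8 = 7 := by omega
  rcases this with h | h | h | h <;> simp [pow_two, Nat.mul_mod, h]

theorem odd_of_sq_odd {n : ℕ} (h : n ^ 2 % 2 = 1) : n % 2 = 1 := by
  by_contra hn
  have h0 : n % 2 = 0 := by omega
  simp [pow_two, Nat.mul_mod, h0] at h

/-- structure of the solutions of the Pell equation -/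
theorem pell_split {T y : ℕ} (h : T ^ 2 = 24 * y ^ 2 + 1) (hy : 0 < y) :
    (∃ q z, 0 < z ∧ y = 2 * (q * z) ∧ q ^ 2 = 24 * z ^ 2 + 1) ∨
    (∃ p q, 0 < p ∧ y = p * q ∧ 3 * q ^ 2 = 2 * p ^ 2 + 1 ∧ T = 4 * p ^ 2 + 1) := by
  have hT : T % 2 = 1 := odd_of_sq_odd (by omega)
  obtain ⟨s, rfl⟩ : ∃ s, T = 2 * s + 1 := ⟨T / 2, by omega⟩
  have h1 : s * (s + 1) = 6 * y ^ 2 := by nlinarith
  have hcop : s.Coprime (s + 1) := by simp
  rcases split_six hcop h1 with ⟨p, q, h2, h3, h4⟩ | ⟨p, q, h2, h3, h4⟩ | ⟨p, q, h2, h3, h4⟩ |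
    ⟨p, q, h2, h3, h4⟩
  · exfalso
    have := sq_mod_three p
    omega
  · left
    -- s = 6 p^2, s + 1 = q^2
    have hq : q ^ 2 = 6 * p ^ 2 + 1 := by omega
    have hq1 : q % 2 = 1 := odd_of_sq_odd (by omega)
    have hq8 := sq_mod_eight_of_odd hq1
    have hp : p % 2 = 0 := by
      by_contra hp
      have := sq_mod_eight_of_odd (n := p) (by omega)
      omega
    obtain ⟨z, rfl⟩ : ∃ z, p = 2 * z := ⟨p / 2, by omega⟩
    refine ⟨q, z, ?_, by rw [h2]; ring, by rw [hq]; ring⟩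
    rcases Nat.eq_zero_or_pos z with rfl | h5
    · simp at h2
      omega
    · exact h5
  · right
    refine ⟨p, q, ?_, h2, by omega, by omega⟩
    rcases Nat.eq_zero_or_pos p with rfl | h5
    · simp at h2
      omega
    · exact h5
  · exfalso
    have h5 : 2 * q ^ 2 = 3 * p ^ 2 + 1 := by omega
    have := sq_mod_three q
    omega

theorem fourth_mod_five (n : ℕ) : n ^ 4 % 5 = 0 ∨ n ^ 4 % 5 = 1 := by
  have : n % 5 = 0 ∨ n % 5 = 1 ∨ n % 5 = 2 ∨ n % 5 = 3 ∨ n % 5 = 4 := by omega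
  rcases this with h | h | h | h | h <;> simp [pow_succ, Nat.mul_mod, h]

/-- the odd case: `p q` is odd and not three times a square -/
theorem odd_case {p q : ℕ} (h : 3 * q ^ 2 = 2 * p ^ 2 + 1) :
    (p * q) % 2 = 1 ∧ ∀ s, p * q ≠ 3 * s ^ 2 := by
  have hq1 : q % 2 = 1 := odd_of_sq_odd (by omega)
  have hq8 := sq_mod_eight_of_odd hq1
  have hp1 : p % 2 = 1 := by
    by_contra hp
    obtain ⟨z, rfl⟩ : ∃ z, p = 2 * z := ⟨p / 2, by omega⟩
    have : 3 * q ^ 2 = 8 * z ^ 2 + 1 := by rw [h]; ring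
    omega
  refine ⟨by rw [Nat.mul_mod, hp1, hq1], fun s hs => ?_⟩
  have hp3 : ¬ 3 ∣ p := by
    rintro ⟨c, rfl⟩
    have : 3 * q ^ 2 = 3 * (6 * c ^ 2) + 1 := by rw [h]; ring
    omega
  have h3 : 3 ∣ p * q := ⟨s ^ 2, hs⟩
  obtain ⟨w, rfl⟩ : 3 ∣ q := (Nat.prime_three.dvd_mul.1 h3).resolve_left hp3
  have h4 : p * w = s ^ 2 := by
    have : 3 * (p * w) = 3 * s ^ 2 := by rw [← hs]; ring
    omega
  have h5 : p.Coprime w := by
    have h6 : Nat.gcd p w ∣ 1 := by
      have h7 : Nat.gcd p w ∣ 2 * p ^ 2 := Dvd.dvd.mul_left (dvd_pow (Nat.gcd_dvd_left p w) (by norm_num)) 2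
      have h8 : Nat.gcd p w ∣ 3 * (3 * w) ^ 2 :=
        Dvd.dvd.mul_left (dvd_pow (Dvd.dvd.mul_left (Nat.gcd_dvd_right p w) 3) (by norm_num)) 3
      rw [h] at h8
      exact (Nat.dvd_add_right h7).1 h8
    exact Nat.dvd_one.1 h6
  obtain ⟨t, rfl⟩ := sq_of_mul h5 h4
  obtain ⟨v, rfl⟩ := sq_of_mul' h5 h4
  have h6 : 27 * v ^ 4 = 2 * t ^ 4 + 1 := by
    have : 3 * (3 * v ^ 2) ^ 2 = 27 * v ^ 4 := by ring
    have h7 : 2 * (t ^ 2) ^ 2 + 1 = 2 * t ^ 4 + 1 := by ring
    rw [← this, ← h7, h]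
  have h7 := fourth_mod_five v
  have h8 := fourth_mod_five t
  omega

/-- `y` is neither three nor six times a square -/
theorem not_three_six : ∀ y : ℕ, 0 < y → ∀ T, T ^ 2 = 24 * y ^ 2 + 1 →
    (∀ s, y ≠ 3 * s ^ 2) ∧ ∀ s, y ≠ 6 * s ^ 2 := by
  intro y
  induction y using Nat.strong_induction_on with
  | _ y ih =>
    intro hy T hT
    rcases pell_split hT hy with ⟨q, z, hz, h1, h2⟩ | ⟨p, q, hp, h1, h2, h3⟩
    · have hqz : q.Coprime z := by
        have h6 : Nat.gcd q z ∣ 1 := by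
          have h7 : Nat.gcd q z ∣ q ^ 2 := dvd_pow (Nat.gcd_dvd_left q z) (by norm_num)
          have h8 : Nat.gcd q z ∣ 24 * z ^ 2 :=
            Dvd.dvd.mul_left (dvd_pow (Nat.gcd_dvd_right q z) (by norm_num)) 24
          rw [h2] at h7
          exact (Nat.dvd_add_right h8).1 h7
        exact Nat.dvd_one.1 h6
      have hq0 : 0 < q := by
        rcases Nat.eq_zero_or_pos q with rfl | h
        · simp at h2
        · exact h
      have hzy : z < y := by
        rw [h1]
        nlinarith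
      have hq2 : ¬ 2 ∣ q := by
        rintro ⟨c, rfl⟩
        have : 4 * c ^ 2 = 24 * z ^ 2 + 1 := by rw [← h2]; ring
        omega
      have hq3 : ¬ 3 ∣ q := by
        rintro ⟨c, rfl⟩
        have : 9 * c ^ 2 = 24 * z ^ 2 + 1 := by rw [← h2]; ring
        omega
      obtain ⟨ih3, ih6⟩ := ih z hzy hz q h2
      constructor
      · intro s hs
        -- 2 q z = 3 s^2
        have h3 : 2 * (q * z) = 3 * s ^ 2 := by rw [← h1, hs]
        have hs2 : 2 ∣ s := by
          have : 2 ∣ s ^ 2 := by omega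
          exact Nat.prime_two.dvd_of_dvd_pow this
        obtain ⟨s', rfl⟩ := hs2
        have h4 : q * z = 6 * s' ^ 2 := by
          have : 3 * (2 * s') ^ 2 = 2 * (6 * s' ^ 2) := by ring
          omega
        have h5 : 2 ∣ z := by
          have : 2 ∣ q * z := ⟨3 * s' ^ 2, by rw [h4]; ring⟩
          exact (Nat.prime_two.dvd_mul.1 this).resolve_left hq2
        have h6 : 3 ∣ z := by
          have : 3 ∣ q * z := ⟨2 * s' ^ 2, by rw [h4]; ring⟩
          exact (Nat.prime_three.dvd_mul.1 this).resolve_left hq3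
        obtain ⟨z', rfl⟩ : 6 ∣ z :=
          Nat.Coprime.mul_dvd_of_dvd_of_dvd (by norm_num : Nat.Coprime 2 3) h5 h6
        have h7 : q * z' = s' ^ 2 := by
          have : q * (6 * z') = 6 * (q * z') := by ring
          omega
        obtain ⟨w, hw⟩ := sq_of_mul' (Nat.Coprime.coprime_mul_left_right hqz) h7
        exact ih6 w (by rw [hw])
      · intro s hs
        have h3 : q * z = 3 * s ^ 2 := by omega
        have h6 : 3 ∣ z := by
          have : 3 ∣ q * z := ⟨s ^ 2, by rw [h3]⟩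
          exact (Nat.prime_three.dvd_mul.1 this).resolve_left hq3
        obtain ⟨z', rfl⟩ := h6
        have h7 : q * z' = s ^ 2 := by
          have : q * (3 * z') = 3 * (q * z') := by ring
          omega
        obtain ⟨w, hw⟩ := sq_of_mul' (Nat.Coprime.coprime_mul_left_right hqz) h7
        exact ih3 w (by rw [hw])
    · obtain ⟨h4, h5⟩ := odd_case h2
      constructor
      · intro s hs
        exact h5 s (by rw [← h1, hs])
      · intro s hs
        rw [← h1, hs] at h4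
        omega

/-- the main descent -/
theorem main_descent : ∀ y : ℕ, 0 < y → ∀ T A c : ℕ, T ^ 2 = 24 * y ^ 2 + 1 → A % 2 = 1 →
    A.Coprime (T * y) → (∀ s, A ≠ 3 * s ^ 2) → (c = 3 ∨ c = 6) → ¬ PS (T * (c * A * y)) := by
  intro y
  induction y using Nat.strong_induction_on with
  | _ y ih =>
    intro hy T A c hT hA hcop hA3 hc hPS
    have hT2 : ¬ 2 ∣ T := by
      rintro ⟨d, rfl⟩
      have : 4 * d ^ 2 = 24 * y ^ 2 + 1 := by rw [← hT]; ring
      omega
    have hT3 : ¬ 3 ∣ T := by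
      rintro ⟨d, rfl⟩
      have : 9 * d ^ 2 = 24 * y ^ 2 + 1 := by rw [← hT]; ring
      omega
    have hTy : T.Coprime y := by
      have h6 : Nat.gcd T y ∣ 1 := by
        have h7 : Nat.gcd T y ∣ T ^ 2 := dvd_pow (Nat.gcd_dvd_left T y) (by norm_num)
        have h8 : Nat.gcd T y ∣ 24 * y ^ 2 :=
          Dvd.dvd.mul_left (dvd_pow (Nat.gcd_dvd_right T y) (by norm_num)) 24
        rw [hT] at h7
        exact (Nat.dvd_add_right h8).1 h7
      exact Nat.dvd_one.1 h6
    have hT2' : T.Coprime 2 := by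
      rw [Nat.coprime_comm, Nat.Prime.coprime_iff_not_dvd Nat.prime_two]
      exact hT2
    have hT3' : T.Coprime 3 := by
      rw [Nat.coprime_comm, Nat.Prime.coprime_iff_not_dvd Nat.prime_three]
      exact hT3
    have hTc : T.Coprime c := by
      rcases hc with rfl | rfl
      · exact hT3'
      · exact Nat.Coprime.mul_right hT2' hT3'
    have hAT : A.Coprime T := Nat.Coprime.coprime_mul_right_right hcop
    have hAy : A.Coprime y := Nat.Coprime.coprime_mul_left_right hcop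
    have hA2 : A.Coprime 2 := by
      rw [Nat.coprime_comm, Nat.Prime.coprime_iff_not_dvd Nat.prime_two]
      omega
    have hTcAy : T.Coprime (c * A * y) :=
      Nat.Coprime.mul_right (Nat.Coprime.mul_right hTc hAT.symm) hTy
    obtain ⟨hy3, hy6⟩ := not_three_six y hy T hT
    rcases PS.split hTcAy hPS with ⟨t, ht, hps⟩ | ⟨r, hr, hps⟩
    · -- T is a square
      rcases pell_split hT hy with ⟨q, z, hz, h1, h2⟩ | ⟨p, q, hp, h1, h2, h3⟩
      · have hq0 : 0 < q := by
          rcases Nat.eq_zero_or_pos q with rfl | h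
          · simp at h2
          · exact h
        have hzy : z < y := by
          rw [h1]
          nlinarith
        have hAqz : A.Coprime (q * z) := by
          rw [h1] at hAy
          exact Nat.Coprime.coprime_mul_left_right hAy
        rcases hc with rfl | rfl
        · apply ih z hzy hz q A 6 h2 hA hAqz hA3 (Or.inr rfl)
          have : 3 * A * y = q * (6 * A * z) := by rw [h1]; ring
          rwa [← this]
        · apply ih z hzy hz q A 3 h2 hA hAqz hA3 (Or.inl rfl)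
          apply PS.of_four
          have : 6 * A * y = 4 * (q * (3 * A * z)) := by rw [h1]; ring
          rwa [← this]
      · -- T = 4 p^2 + 1 = t^2
        have h4 : t ^ 2 = (2 * p) ^ 2 + 1 := by
          rw [← ht, h3]; ring
        have h5 : 2 * p < t := by nlinarith
        nlinarith
    · -- c * A * y is a square
      by_cases h3A : 3 ∣ A
      · obtain ⟨A', rfl⟩ := h3A
        rcases hc with rfl | rfl
        · have h4 : 3 * (3 * A') * y = 9 * (A' * y) := by ring
          have h5 : 3 ∣ r := by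
            have : 3 ∣ r ^ 2 := ⟨3 * (A' * y), by rw [← hr]; ring⟩
            exact Nat.prime_three.dvd_of_dvd_pow this
          obtain ⟨r', rfl⟩ := h5
          have h6 : A' * y = r' ^ 2 := by
            have : (3 * r') ^ 2 = 9 * r' ^ 2 := by ring
            omega
          obtain ⟨w, hw⟩ := sq_of_mul (Nat.Coprime.coprime_mul_left hAy) h6
          exact hA3 w (by rw [hw])
        · have h4 : 6 * (3 * A') * y = 9 * (A' * (2 * y)) := by ring
          have h5 : 3 ∣ r := by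
            have : 3 ∣ r ^ 2 := ⟨6 * (A' * y), by rw [← hr]; ring⟩
            exact Nat.prime_three.dvd_of_dvd_pow this
          obtain ⟨r', rfl⟩ := h5
          have h6 : A' * (2 * y) = r' ^ 2 := by
            have : (3 * r') ^ 2 = 9 * r' ^ 2 := by ring
            omega
          have h7 : A'.Coprime (2 * y) :=
            Nat.Coprime.mul_right (Nat.Coprime.coprime_mul_left hA2) (Nat.Coprime.coprime_mul_left hAy)
          obtain ⟨w, hw⟩ := sq_of_mul h7 h6
          exact hA3 w (by rw [hw])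
      · have hA3' : A.Coprime 3 := by
          rw [Nat.coprime_comm, Nat.Prime.coprime_iff_not_dvd Nat.prime_three]
          exact h3A
        have hAc : A.Coprime c := by
          rcases hc with rfl | rfl
          · exact hA3'
          · exact Nat.Coprime.mul_right hA2 hA3'
        have h4 : A * (c * y) = r ^ 2 := by rw [← hr]; ring
        obtain ⟨w, hw⟩ := sq_of_mul' (Nat.Coprime.mul_right hAc hAy) h4
        rcases hc with rfl | rfl
        · have h5 : 3 ∣ w := by
            have : 3 ∣ w ^ 2 := ⟨y, hw.symm⟩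
            exact Nat.prime_three.dvd_of_dvd_pow this
          obtain ⟨w', rfl⟩ := h5
          apply hy3 w'
          have : (3 * w') ^ 2 = 3 * (3 * w' ^ 2) := by ring
          omega
        · have h5 : 3 ∣ w := by
            have : 3 ∣ w ^ 2 := ⟨2 * y, by rw [← hw]; ring⟩
            exact Nat.prime_three.dvd_of_dvd_pow this
          have h6 : 2 ∣ w := by
            have : 2 ∣ w ^ 2 := ⟨3 * y, by rw [← hw]; ring⟩
            exact Nat.prime_two.dvd_of_dvd_pow this
          obtain ⟨w', rfl⟩ : 6 ∣ w :=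
            Nat.Coprime.mul_dvd_of_dvd_of_dvd (by norm_num : Nat.Coprime 2 3) h6 h5
          apply hy6 w'
          have : (6 * w') ^ 2 = 6 * (6 * w' ^ 2) := by ring
          omega

end Pool.Agent.Lib.P685530
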