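import Mathlib

/-!
# Runs of consecutive integers with `k` divisors
-/

set_option autoImplicit false

namespace Pool.Agent.Lib.P685530

/-- `n, …, n + L - 1` are `L` consecutive positive integers with exactly `k` divisors -/
def Run (k n L : ℕ) : Prop := 0 < n ∧ ∀ i < L, (n + i).divisors.card = k

end Pool.Agent.Lib.P685530
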