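import Pool.Agent.Lib.P685530.Runs

/-!
# Runs of consecutive integers with `k` divisors, `k ≡ 4 (mod 8)`
-/

set_option autoImplicit false

namespace Pool.Agent.Lib.P685530

/-- if `u` has four divisors, `u` and `m` are coprime and `u m` has `4 (mod 8)` divisors, then `m`
is a square -/
theorem sq_of_card {u m : ℕ} (hm : m ≠ 0) (hu : u.divisors.card = 4) (hcop : u.Coprime m)
    (h : (u * m).divisors.card % 8 = 4) : ∃ b, m = b ^ 2 := by
  rw [hcop.card_divisors_mul, hu] at h
  apply exists_pow hm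
  intro q
  obtain ⟨c, hc⟩ := succ_dvd_card (q := q) hm
  by_contra hcon
  obtain ⟨b, hb⟩ : 2 ∣ m.factorization q + 1 := by omega
  rw [hc, hb, mul_assoc] at h
  omega

theorem eight_case {x : ℕ} (hx : x % 16 = 8) (h : x.divisors.card % 8 = 4) :
    ∃ a, x = 8 * a ^ 2 ∧ a % 2 = 1 := by
  obtain ⟨m, hm⟩ : ∃ m, x = 8 * m := ⟨x / 8, by omega⟩
  have hm2 : m % 2 = 1 := by omega
  have hcop : Nat.Coprime 8 m := by
    rw [show (8 : ℕ) = 2 ^ 3 by norm_num]
    apply Nat.Coprime.pow_left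
    rw [Nat.Prime.coprime_iff_not_dvd Nat.prime_two]
    omega
  obtain ⟨a, rfl⟩ := sq_of_card (u := 8) (m := m) (by omega) (by decide) hcop (by rw [← hm]; exact h)
  exact ⟨a, hm, odd_of_sq_odd hm2⟩

theorem six_case {x : ℕ} (h2 : x % 4 = 2) (h3 : x % 3 = 0) (h9 : x % 9 ≠ 0)
    (h : x.divisors.card % 8 = 4) : ∃ b, x = 6 * b ^ 2 ∧ b ^ 2 % 8 = 1 ∧ b ^ 2 % 3 = 1 := by
  obtain ⟨m, hm⟩ : ∃ m, x = 6 * m := ⟨x / 6, by omega⟩
  have hm2 : m % 2 = 1 := by omega
  have hm3 : m % 3 ≠ 0 := by omega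
  have hcop : Nat.Coprime 6 m := by
    rw [show (6 : ℕ) = 2 * 3 by norm_num]
    apply Nat.Coprime.mul_left
    · rw [Nat.Prime.coprime_iff_not_dvd Nat.prime_two]
      omega
    · rw [Nat.Prime.coprime_iff_not_dvd Nat.prime_three]
      omega
  obtain ⟨b, rfl⟩ := sq_of_card (u := 6) (m := m) (by omega) (by decide) hcop (by rw [← hm]; exact h)
  refine ⟨b, hm, sq_mod_eight_of_odd (odd_of_sq_odd hm2), ?_⟩
  rcases sq_mod_three b with h | h
  · exact absurd h hm3
  · exact h

/-- the three positions: `y - 14`, `y - 6`, `y - 2` and `y ≡ 8 (mod 16)` cannot all be good -/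
theorem three_positions {z : ℕ} (hy : (z + 14) % 16 = 8) (h0 : z.divisors.card % 8 = 4)
    (h8 : (z + 8).divisors.card % 8 = 4) (h12 : (z + 12).divisors.card % 8 = 4)
    (h14 : (z + 14).divisors.card % 8 = 4) : False := by
  obtain ⟨a, ha, ha1⟩ := eight_case hy h14
  have ha8 := sq_mod_eight_of_odd ha1
  rcases sq_mod_three a with h3 | h3
  · -- `3 ∣ a`
    have h3a : 3 ∣ a := Nat.prime_three.dvd_of_dvd_pow (Nat.dvd_of_mod_eq_zero h3)
    obtain ⟨c, rfl⟩ := h3a
    have h9 : (3 * c) ^ 2 = 9 * c ^ 2 := by ring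
    obtain ⟨b, hb, hb8, hb3⟩ := six_case (x := z + 8) (by omega) (by omega) (by omega) h8
    omega
  · have h9 : a ^ 2 % 9 = 1 ∨ a ^ 2 % 9 = 4 ∨ a ^ 2 % 9 = 7 := by omega
    by_cases h5 : a ^ 2 % 9 = 4
    · obtain ⟨b, hb, hb8, hb3⟩ := six_case (x := z + 12) (by omega) (by omega) (by omega) h12
      omega
    · obtain ⟨b, hb, hb8, hb3⟩ := six_case (x := z) (by omega) (by omega) (by omega) h0
      omega

theorem not_sixteen_apart {x : ℕ} (hx : x % 16 = 8) (h : x.divisors.card % 8 = 4)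
    (h' : (x + 16).divisors.card % 8 = 4) : False := by
  obtain ⟨a, ha, ha1⟩ := eight_case hx h
  obtain ⟨b, hb, hb1⟩ := eight_case (x := x + 16) (by omega) h'
  have ha8 := sq_mod_eight_of_odd ha1
  have hb8 := sq_mod_eight_of_odd hb1
  omega

theorem five_dvd_card {x : ℕ} (hx : x % 16 = 8) (h : x.divisors.card % 8 = 4) :
    5 ∣ (x + 8).divisors.card := by
  obtain ⟨a, ha, ha1⟩ := eight_case hx h
  have ha8 := sq_mod_eight_of_odd ha1
  have h1 : (x + 8).factorization 2 = 4 := by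
    have h2 : 4 ≤ (x + 8).factorization 2 := by
      rw [← Nat.prime_two.pow_dvd_iff_le_factorization (by omega)]
      norm_num
      omega
    have h3 : ¬ 5 ≤ (x + 8).factorization 2 := by
      rw [← Nat.prime_two.pow_dvd_iff_le_factorization (by omega)]
      norm_num
      omega
    omega
  have h2 := succ_dvd_card (n := x + 8) (q := 2) (by omega)
  rwa [h1] at h2

theorem exists_eight (n : ℕ) : ∃ i < 16, (n + i) % 16 = 8 := by
  refine ⟨(24 - n % 16) % 16, Nat.mod_lt _ (by norm_num), by omega⟩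

theorem run_le_29 {k n L : ℕ} (hk : k % 8 = 4) (h : Run k n L) : L ≤ 29 := by
  by_contra hL
  obtain ⟨hn, hrun⟩ := h
  have hg : ∀ i < 30, (n + i).divisors.card % 8 = 4 := by
    intro i hi
    rw [hrun i (by omega), hk]
  obtain ⟨i, hi16, hi8⟩ := exists_eight n
  by_cases hi : i < 14
  · exact not_sixteen_apart hi8 (hg i (by omega)) (by rw [add_assoc]; exact hg (i + 16) (by omega))
  · obtain ⟨j, rfl⟩ : ∃ j, i = j + 14 := ⟨i - 14, by omega⟩
    apply three_positions (z := n + j) (by rw [add_assoc]; exact hi8) (hg j (by omega))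
    · rw [add_assoc]; exact hg (j + 8) (by omega)
    · rw [add_assoc]; exact hg (j + 12) (by omega)
    · rw [add_assoc]; exact hg (j + 14) (by omega)

theorem run_le_21 {k n L : ℕ} (hk : k % 8 = 4) (hk5 : ¬ 5 ∣ k) (h : Run k n L) : L ≤ 21 := by
  by_contra hL
  obtain ⟨hn, hrun⟩ := h
  have hg : ∀ i < 22, (n + i).divisors.card % 8 = 4 := by
    intro i hi
    rw [hrun i (by omega), hk]
  obtain ⟨i, hi16, hi8⟩ := exists_eight n
  by_cases hi : i < 14
  · apply hk5
    rw [← hrun (i + 8) (by omega)]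
    have := five_dvd_card hi8 (hg i (by omega))
    rwa [add_assoc] at this
  · obtain ⟨j, rfl⟩ : ∃ j, i = j + 14 := ⟨i - 14, by omega⟩
    apply three_positions (z := n + j) (by rw [add_assoc]; exact hi8) (hg j (by omega))
    · rw [add_assoc]; exact hg (j + 8) (by omega)
    · rw [add_assoc]; exact hg (j + 12) (by omega)
    · rw [add_assoc]; exact hg (j + 14) (by omega)

end Pool.Agent.Lib.P685530
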