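import Pool.Agent.Lib.P685530.Powers
import Pool.Agent.Lib.P685530.Four

/-!
# The greatest length of a run
-/

set_option autoImplicit false

namespace Pool.Agent.Lib.P685530

theorem exists_max {k B : ℕ} (h : ∀ n L, Run k n L → L ≤ B) :
    ∃ M, IsGreatest {L | ∃ n, Run k n L} M ∧ M ≤ B := by
  have hne : {L | ∃ n, Run k n L}.Nonempty :=
    ⟨0, 1, one_pos, fun i hi => absurd hi (Nat.not_lt_zero i)⟩
  have hbd : BddAbove {L | ∃ n, Run k n L} := ⟨B, fun L ⟨n, hn⟩ => h n L hn⟩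
  have hm := Nat.sSup_mem hne hbd
  refine ⟨sSup {L | ∃ n, Run k n L}, ⟨hm, fun L hL => le_csSup hbd hL⟩, ?_⟩
  obtain ⟨n, hn⟩ := hm
  exact h n _ hn

end Pool.Agent.Lib.P685530
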