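import Pool.Agent.Lib.P685530.Runs

/-!
# `k ≡ 2 (mod 4)`, all odd primes dividing `k` congruent to `1` modulo `4`, or modulo `3`
-/

set_option autoImplicit false

namespace Pool.Agent.Lib.P685530

/-- the odd divisors of `k` are `1 (mod g)` if the odd primes dividing `k` are -/
theorem odd_dvd_mod {k g : ℕ} (hg : 1 < g)
    (hk : ∀ p, p.Prime → p ∣ k → p ≠ 2 → p % g = 1) :
    ∀ d, d % 2 = 1 → d ∣ k → d % g = 1 := by
  intro d
  induction d using Nat.strong_induction_on with
  | _ d ih =>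
    intro hd hdk
    by_cases h1 : d = 1
    · rw [h1, Nat.mod_eq_of_lt hg]
    · have hp := Nat.minFac_prime h1
      obtain ⟨e, he⟩ := Nat.minFac_dvd d
      have hd0 : 0 < d := by omega
      have he0 : 0 < e := by
        rcases Nat.eq_zero_or_pos e with h | h
        · rw [h, mul_zero] at he
          omega
        · exact h
      have h2 := hp.two_le
      have hed : e < d := by
        rw [he]
        nlinarith
      have he2 : e % 2 = 1 := by
        by_contra hcon
        obtain ⟨c, hc⟩ : 2 ∣ e := by omega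
        have : d = 2 * (d.minFac * c) := by
          conv_lhs => rw [he, hc]
          ring
        omega
      have hm2 : d.minFac ≠ 2 := by
        intro h
        rw [h] at he
        omega
      have h3 := ih e hed he2 ((Dvd.intro_left _ he.symm).trans hdk)
      have h4 := hk d.minFac hp ((Nat.minFac_dvd d).trans hdk) hm2
      rw [he, Nat.mul_mod, h3, h4, mul_one, Nat.mod_eq_of_lt hg]

/-- shape of the good integers: a prime times a `2 g`-th power (`g` odd), or a fourth power -/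
theorem eq_prime_mul_pow {n p g : ℕ} (hg : g = 4 ∨ g = 3) (hn : n ≠ 0) (hp : p.Prime)
    (h4 : n.divisors.card % 4 = 2)
    (hk : ∀ q, q.Prime → q ∣ n.divisors.card → q ≠ 2 → q % g = 1)
    (hodd : n.factorization p % 2 = 1) : ∃ w, n = p * w ^ (if g = 4 then 4 else 6) := by
  have hd := odd_dvd_mod (by omega) hk
  obtain ⟨m, hm, h1, h2⟩ := split_prime hn hp
  have h3 : m.divisors.card % 2 = 1 := by
    by_contra hcon
    obtain ⟨a, ha⟩ : 2 ∣ n.factorization p + 1 := by omega
    obtain ⟨b, hb⟩ : 2 ∣ m.divisors.card := by omega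
    rw [h2, ha, hb] at h4
    have : 2 * a * (2 * b) % 4 = 0 := by
      have : 2 * a * (2 * b) = 4 * (a * b) := by ring
      omega
    omega
  have hexp : ∀ q, m.factorization q % g = 0 ∧ m.factorization q % 2 = 0 := by
    intro q
    have h5 := succ_dvd_card (q := q) hm
    have h6 : (m.factorization q + 1) % 2 = 1 := by
      obtain ⟨c, hc⟩ := h5
      by_contra hcon
      obtain ⟨b, hb⟩ : 2 ∣ m.factorization q + 1 := by omega
      rw [hc, hb, mul_assoc] at h3
      omega
    have h7 := hd _ h6 (h5.trans (by rw [h2]; exact Dvd.intro_left _ rfl))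
    refine ⟨?_, by omega⟩
    rcases hg with rfl | rfl <;> omega
  obtain ⟨f, hf⟩ : ∃ f, n.factorization p + 1 = 2 * f := ⟨(n.factorization p + 1) / 2, by omega⟩
  have hf2 : f % 2 = 1 := by
    by_contra hcon
    obtain ⟨c, rfl⟩ : 2 ∣ f := by omega
    rw [h2, hf] at h4
    have : 2 * (2 * c) * m.divisors.card = 4 * (c * m.divisors.card) := by ring
    omega
  have hfg : f % g = 1 := hd f hf2 (by
    rw [h2, hf]
    exact ⟨2 * m.divisors.card, by ring⟩)
  rcases hg with rfl | rfl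
  · obtain ⟨s, hs⟩ : ∃ s, m = s ^ 4 := exists_pow hm fun q => by
      have := (hexp q).1
      omega
    obtain ⟨j, hj⟩ : ∃ j, n.factorization p = 4 * j + 1 := ⟨n.factorization p / 4, by omega⟩
    refine ⟨p ^ j * s, ?_⟩
    rw [hj, hs] at h1
    rw [h1, if_pos rfl]
    ring
  · obtain ⟨s, hs⟩ : ∃ s, m = s ^ 6 := exists_pow hm fun q => by
      have := hexp q
      omega
    obtain ⟨j, hj⟩ : ∃ j, n.factorization p = 6 * j + 1 := ⟨n.factorization p / 6, by omega⟩
    refine ⟨p ^ j * s, ?_⟩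
    rw [hj, hs] at h1
    rw [h1, if_neg (by norm_num)]
    ring

/-! ### Fourth powers -/

/-- splitting a prime times a fourth power -/
theorem split_fourth {u v p w : ℕ} (h : u.Coprime v) (hp : p.Prime) (hw : u * v = p * w ^ 4) :
    (∃ s t, u = s ^ 4 ∧ v = p * t ^ 4) ∨ (∃ s t, u = p * s ^ 4 ∧ v = t ^ 4) := by
  have h2 : p ∣ u * v := ⟨w ^ 4, hw⟩
  have key : ∀ {a b : ℕ}, a.Coprime b → a * b = w ^ 4 → (∃ s, a = s ^ 4) ∧ ∃ t, b = t ^ 4 := by
    intro a b hab h3
    constructor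
    · apply exists_eq_pow_of_mul_eq_pow (b := b) (c := w) _ h3
      rw [Nat.isUnit_iff]
      exact hab
    · apply exists_eq_pow_of_mul_eq_pow (b := a) (c := w) _ (by rw [mul_comm]; exact h3)
      rw [Nat.isUnit_iff]
      exact hab.symm
  rcases hp.dvd_mul.1 h2 with h3 | h3
  · obtain ⟨u', rfl⟩ := h3
    right
    have h4 : u' * v = w ^ 4 := by
      have h5 : p * (u' * v) = p * w ^ 4 := by rw [← hw]; ring
      exact Nat.eq_of_mul_eq_mul_left hp.pos h5
    obtain ⟨⟨s, hs⟩, t, ht⟩ := key (Nat.Coprime.coprime_mul_left h) h4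
    exact ⟨s, t, by rw [hs], ht⟩
  · obtain ⟨v', rfl⟩ := h3
    left
    have h4 : u * v' = w ^ 4 := by
      have h5 : p * (u * v') = p * w ^ 4 := by rw [← hw]; ring
      exact Nat.eq_of_mul_eq_mul_left hp.pos h5
    obtain ⟨⟨s, hs⟩, t, ht⟩ := key (Nat.Coprime.coprime_mul_left_right h) h4
    exact ⟨s, t, hs, by rw [ht]⟩

/-- no two squares differ by one -/
theorem sq_succ {x y : ℕ} (h : x ^ 2 = y ^ 2 + 1) : y = 0 := by
  by_contra hy
  have h1 : y < x := by
    by_contra hcon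
    have := Nat.pow_le_pow_left (not_lt.1 hcon) 2
    omega
  nlinarith [Nat.pos_of_ne_zero hy]

/-- `2 (c⁴ - 1)` is not a prime times a fourth power -/
theorem fourth_descent : ∀ c : ℕ, 1 < c → ∀ p w : ℕ, p.Prime → 2 * c ^ 4 ≠ p * w ^ 4 + 2 := by
  intro c
  induction c using Nat.strong_induction_on with
  | _ c ih =>
    intro hc p w hp h
    -- a general step: `κ (x² - 1) = p z⁴` with `x` odd splits
    have hpar : ∀ x : ℕ, x % 2 = 1 → 1 < x → ∃ A g : ℕ, x ^ 2 = A + 1 ∧ x ^ 2 + 1 = 2 * g ∧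
        g % 2 = 1 ∧ A % 8 = 0 ∧ (A).Coprime g ∧ 0 < A := by
      intro x hx hx1
      have h8 := sq_mod_eight_of_odd hx
      have hx4 : 4 ≤ x ^ 2 := by nlinarith
      refine ⟨x ^ 2 - 1, (x ^ 2 + 1) / 2, by omega, by omega, by omega, by omega, ?_, by omega⟩
      obtain ⟨g, hg⟩ : ∃ g, g = (x ^ 2 + 1) / 2 := ⟨_, rfl⟩
      rw [← hg]
      have h1 : Nat.gcd (x ^ 2 - 1) g ∣ 2 := by
        have h2 : Nat.gcd (x ^ 2 - 1) g ∣ 2 * g := Dvd.dvd.mul_left (Nat.gcd_dvd_right _ _) 2
        have h3 : 2 * g = (x ^ 2 - 1) + 2 := by omega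
        rw [h3] at h2
        exact (Nat.dvd_add_right (Nat.gcd_dvd_left _ _)).1 h2
      have h2 : Nat.gcd (x ^ 2 - 1) g ∣ g := Nat.gcd_dvd_right _ _
      rcases (Nat.dvd_prime Nat.prime_two).1 h1 with h3 | h3
      · exact h3
      · rw [h3] at h2
        omega
    have hdiv : ∀ N z : ℕ, p * z ^ 4 = 16 * N → ∃ z', p * z' ^ 4 = N := by
      intro N z hz
      have hz2 : 2 ∣ z := by
        by_contra hz2
        have hcop : Nat.Coprime 16 (z ^ 4) := by
          rw [Nat.coprime_comm, show (16 : ℕ) = 2 ^ 4 by norm_num]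
          apply Nat.Coprime.pow
          rw [Nat.coprime_comm, Nat.Prime.coprime_iff_not_dvd Nat.prime_two]
          exact hz2
        have h5 : 16 ∣ p := hcop.dvd_of_dvd_mul_right ⟨N, hz⟩
        have h6 : (2 : ℕ) ∣ p := dvd_trans (by norm_num) h5
        rw [Nat.prime_dvd_prime_iff_eq Nat.prime_two hp] at h6
        omega
      obtain ⟨z', rfl⟩ := hz2
      refine ⟨z', ?_⟩
      have : p * (2 * z') ^ 4 = 16 * (p * z' ^ 4) := by ring
      omega
    -- `c` is odd
    have hc1 : c % 2 = 1 := by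
      by_contra hcon
      obtain ⟨d, rfl⟩ : 2 ∣ c := by omega
      have h1 : p * w ^ 4 + 2 = 32 * d ^ 4 := by rw [← h]; ring
      have h2 : 2 ∣ p * w ^ 4 := by omega
      rcases Nat.prime_two.dvd_mul.1 h2 with h3 | h3
      · rw [Nat.prime_dvd_prime_iff_eq Nat.prime_two hp] at h3
        subst h3
        -- w^4 + 1 = 16 d^4
        have h4 : w ^ 4 + 1 = 16 * d ^ 4 := by omega
        have h5 : w % 2 = 1 := by
          by_contra hw
          obtain ⟨v, rfl⟩ : 2 ∣ w := by omega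
          have : (2 * v) ^ 4 = 16 * v ^ 4 := by ring
          omega
        have h6 := sq_mod_eight_of_odd h5
        have h7 := sq_mod_eight_of_odd (n := w ^ 2) (by omega)
        have h8 : (w ^ 2) ^ 2 = w ^ 4 := by ring
        omega
      · have h4 : 2 ∣ w := Nat.prime_two.dvd_of_dvd_pow h3
        obtain ⟨v, rfl⟩ := h4
        have : p * (2 * v) ^ 4 = 16 * (p * v ^ 4) := by ring
        omega
    obtain ⟨A, g, hA, hg, hg2, hA8, hcop, hA0⟩ := hpar c hc1 hc
    have hc4 : c ^ 4 = A * (2 * g) + 1 := by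
      have : c ^ 4 = (c ^ 2) ^ 2 := by ring
      rw [this, hA, ← hg, hA]
      ring
    have h1 : (4 * A) * g = p * w ^ 4 := by
      have : 2 * c ^ 4 = 4 * A * g + 2 := by rw [hc4]; ring
      omega
    have hcop4 : (4 * A).Coprime g := by
      apply Nat.Coprime.mul_left _ hcop
      rw [show (4 : ℕ) = 2 ^ 2 by norm_num]
      apply Nat.Coprime.pow_left
      rw [Nat.Prime.coprime_iff_not_dvd Nat.prime_two]
      omega
    rcases split_fourth hcop4 hp h1 with ⟨s, t, hs, ht⟩ | ⟨s, t, hs, ht⟩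
    · -- 4 A = s^4
      have hs2 : 2 ∣ s := by
        have : 2 ∣ s ^ 4 := by omega
        exact Nat.prime_two.dvd_of_dvd_pow this
      obtain ⟨s', rfl⟩ := hs2
      have h2 : c ^ 2 = (2 * s' ^ 2) ^ 2 + 1 := by
        have : (2 * s') ^ 4 = 4 * ((2 * s' ^ 2) ^ 2) := by ring
        omega
      have h3 := sq_succ h2
      have h4 : (2 * s') ^ 4 = 4 * ((2 * s' ^ 2) ^ 2) := by ring
      rw [h3] at h4
      omega
    · -- 4 A = p s^4, g = t^4 : c^2 + 1 = 2 t^4
      have ht1 : t % 2 = 1 := by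
        by_contra hcon
        obtain ⟨v, rfl⟩ : 2 ∣ t := by omega
        have : (2 * v) ^ 4 = 2 * (8 * v ^ 4) := by ring
        omega
      have ht0 : 1 < t := by
        by_contra hcon
        have : t = 1 := by omega
        subst this
        omega
      obtain ⟨B, g', hB, hg', hg2', hB8, hcop', hB0⟩ := hpar t ht1 ht0
      have ht4 : t ^ 4 = B * (2 * g') + 1 := by
        have : t ^ 4 = (t ^ 2) ^ 2 := by ring
        rw [this, hB, ← hg', hB]
        ring
      have h2 : p * s ^ 4 = 16 * (B * g') := by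
        have h3 : A = 2 * (B * (2 * g')) := by omega
        rw [← hs, h3]
        ring
      obtain ⟨z, hz⟩ := hdiv _ _ h2
      rcases split_fourth hcop' hp hz.symm with ⟨s', t', hs', ht'⟩ | ⟨s', t', hs', ht'⟩
      · have h3 : t ^ 2 = (s' ^ 2) ^ 2 + 1 := by
          rw [hB, hs']
          ring
        have h4 := sq_succ h3
        have h5 : s' ^ 4 = (s' ^ 2) ^ 2 := by ring
        rw [h4] at h5
        omega
      · -- B = p s'^4, g' = t'^4 : t^2 + 1 = 2 t'^4
        have h3 : 2 * t' ^ 4 = p * s' ^ 4 + 2 := by omega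
        have h4 : 1 < t' := by
          by_contra hcon
          have : t' = 0 ∨ t' = 1 := by omega
          rcases this with rfl | rfl <;> omega
        have h5 : t' < c := by
          have h6 : t' < t := by
            by_contra hcon
            have h7 := Nat.pow_le_pow_left (not_lt.1 hcon) 2
            have h8 : t' ^ 2 * 4 ≤ t' ^ 4 := by
              have : t' ^ 4 = t' ^ 2 * t' ^ 2 := by ring
              rw [this]
              apply Nat.mul_le_mul_left
              nlinarith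
            omega
          have h7 : t < c := by
            by_contra hcon
            have h8 := Nat.pow_le_pow_left (not_lt.1 hcon) 2
            have h9 : t ^ 2 * 4 ≤ t ^ 4 := by
              have : t ^ 4 = t ^ 2 * t ^ 2 := by ring
              rw [this]
              apply Nat.mul_le_mul_left
              nlinarith
            omega
          omega
        exact ih t' h5 h4 p s' hp h3

/-! ### Sixth powers -/

theorem key_pow {a b w n : ℕ} (hab : a.Coprime b) (h3 : a * b = w ^ n) :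
    (∃ s, a = s ^ n) ∧ ∃ t, b = t ^ n := by
  constructor
  · apply exists_eq_pow_of_mul_eq_pow (b := b) (c := w) _ h3
    rw [Nat.isUnit_iff]
    exact hab
  · apply exists_eq_pow_of_mul_eq_pow (b := a) (c := w) _ (by rw [mul_comm]; exact h3)
    rw [Nat.isUnit_iff]
    exact hab.symm

/-- coprime factors of `8 p z⁶`: one of them is `s⁶` or `8 s⁶` -/
theorem split_sixth_aux {u v z : ℕ} (h : u.Coprime v) (hz : u * v = 8 * z ^ 6) :
    ∃ s, v = s ^ 6 ∨ v = 8 * s ^ 6 := by
  by_cases hv : 2 ∣ v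
  · have hu : Nat.Coprime 8 u := by
      rw [show (8 : ℕ) = 2 ^ 3 by norm_num]
      apply Nat.Coprime.pow_left
      exact (Nat.Coprime.coprime_dvd_right hv h).symm
    have h8 : 8 ∣ v := hu.dvd_of_dvd_mul_left ⟨z ^ 6, hz⟩
    obtain ⟨v', rfl⟩ := h8
    have h1 : u * v' = z ^ 6 := by
      have : u * (8 * v') = 8 * (u * v') := by ring
      omega
    obtain ⟨-, t, ht⟩ := key_pow (Nat.Coprime.coprime_mul_left_right h) h1
    exact ⟨t, Or.inr (by rw [ht])⟩
  · have hv' : Nat.Coprime 8 v := by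
      rw [show (8 : ℕ) = 2 ^ 3 by norm_num]
      apply Nat.Coprime.pow_left
      rw [Nat.Prime.coprime_iff_not_dvd Nat.prime_two]
      exact hv
    have h8 : 8 ∣ u := hv'.dvd_of_dvd_mul_right ⟨z ^ 6, hz⟩
    obtain ⟨u', rfl⟩ := h8
    have h1 : u' * v = z ^ 6 := by
      have : 8 * u' * v = 8 * (u' * v) := by ring
      omega
    obtain ⟨-, t, ht⟩ := key_pow (Nat.Coprime.coprime_mul_left h) h1
    exact ⟨t, Or.inl ht⟩

theorem split_sixth {u v p z : ℕ} (h : u.Coprime v) (hp : p.Prime)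
    (hz : u * v = 8 * (p * z ^ 6)) :
    (∃ s, u = s ^ 6 ∨ u = 8 * s ^ 6) ∨ ∃ s, v = s ^ 6 ∨ v = 8 * s ^ 6 := by
  have h2 : p ∣ u * v := ⟨8 * z ^ 6, by rw [hz]; ring⟩
  rcases hp.dvd_mul.1 h2 with h3 | h3
  · obtain ⟨u', rfl⟩ := h3
    right
    have h4 : u' * v = 8 * z ^ 6 := by
      have h5 : p * (u' * v) = p * (8 * z ^ 6) := by
        calc p * (u' * v) = p * u' * v := by ring
          _ = 8 * (p * z ^ 6) := hz
          _ = p * (8 * z ^ 6) := by ring
      exact Nat.eq_of_mul_eq_mul_left hp.pos h5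
    exact split_sixth_aux (Nat.Coprime.coprime_mul_left h) h4
  · obtain ⟨v', rfl⟩ := h3
    left
    have h4 : v' * u = 8 * z ^ 6 := by
      have h5 : p * (v' * u) = p * (8 * z ^ 6) := by
        calc p * (v' * u) = u * (p * v') := by ring
          _ = 8 * (p * z ^ 6) := hz
          _ = p * (8 * z ^ 6) := by ring
      exact Nat.eq_of_mul_eq_mul_left hp.pos h5
    exact split_sixth_aux (Nat.Coprime.coprime_mul_left_right h).symm h4

/-- the common part of the two cases: `D Q = κ s⁶` with `κ = 2, 16` -/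
theorem cubes_aux {D Q κ s : ℕ} (hκ : κ = 2 ∨ κ = 16) (hQ2 : Q % 2 = 1) (h : D * Q = κ * s ^ 6)
    (hcop : ¬ 3 ∣ D → D.Coprime Q) (hns : ∀ q, Q ≠ q ^ 2)
    (h3 : 3 ∣ D → ∃ E F, D = 3 * E ∧ Q = 3 * (3 * F ^ 2 + 3 * F + 1) ∧ 0 < F ∧
      (E = F ∨ E = F + 1)) : False := by
  have hκQ : ∀ R : ℕ, R % 2 = 1 → Nat.Coprime κ R := by
    intro R hR
    have h2 : Nat.Coprime 2 R := by
      rw [Nat.Prime.coprime_iff_not_dvd Nat.prime_two]
      omega
    rcases hκ with rfl | rfl
    · exact h2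
    · rw [show (16 : ℕ) = 2 ^ 4 by norm_num]
      exact h2.pow_left 4
  have hκ0 : 0 < κ := by omega
  by_cases hD : 3 ∣ D
  · obtain ⟨E, F, rfl, rfl, hF, hEF⟩ := h3 hD
    obtain ⟨R, hR⟩ : ∃ R, R = 3 * F ^ 2 + 3 * F + 1 := ⟨_, rfl⟩
    rw [← hR] at h hQ2
    have hR2 : R % 2 = 1 := by omega
    have h4 : 9 * (E * R) = κ * s ^ 6 := by rw [← h]; ring
    have h3s : 3 ∣ s := by
      have h5 : Nat.Coprime 3 κ := by rcases hκ with rfl | rfl <;> norm_num
      have h6 : 3 ∣ s ^ 6 := h5.dvd_of_dvd_mul_left ⟨3 * (E * R), by rw [← h4]; ring⟩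
      exact Nat.prime_three.dvd_of_dvd_pow h6
    obtain ⟨t, rfl⟩ := h3s
    have h5 : E * R = 81 * κ * t ^ 6 := by
      have : κ * (3 * t) ^ 6 = 9 * (81 * κ * t ^ 6) := by ring
      omega
    have hER : E.Coprime R := by
      have h6 : Nat.gcd E R ∣ 1 := by
        have h7 := Nat.gcd_dvd_left E R
        have h8 := Nat.gcd_dvd_right E R
        rcases hEF with rfl | rfl
        · rw [hR] at h8
          have h9 : Nat.gcd E R ∣ 3 * E ^ 2 + 3 * E :=
            Dvd.dvd.add (Dvd.dvd.mul_left (dvd_pow h7 (by norm_num)) 3) (Dvd.dvd.mul_left h7 3)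
          rw [hR] at h9 ⊢
          exact (Nat.dvd_add_right h9).1 h8
        · have h9 : 3 * F ^ 2 + 3 * F + 1 = 3 * F * (F + 1) + 1 := by ring
          have h10 : Nat.gcd (F + 1) R ∣ 3 * F * (F + 1) := Dvd.dvd.mul_left h7 _
          rw [hR, h9] at h8
          rw [hR, h9] at h10
          have := (Nat.dvd_add_right h10).1 h8
          rw [hR, h9]
          exact this
      exact Nat.dvd_one.1 h6
    have h3R : Nat.Coprime 3 R := by
      rw [Nat.Prime.coprime_iff_not_dvd Nat.prime_three, hR]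
      omega
    have h6 : Nat.Coprime (81 * κ) R := by
      apply Nat.Coprime.mul_left _ (hκQ R hR2)
      rw [show (81 : ℕ) = 3 ^ 4 by norm_num]
      exact h3R.pow_left 4
    obtain ⟨E', hE'⟩ : 81 * κ ∣ E := h6.dvd_of_dvd_mul_right ⟨t ^ 6, h5⟩
    have h7 : E' * R = t ^ 6 := by
      have h8 : 81 * κ * (E' * R) = 81 * κ * t ^ 6 := by rw [← h5, hE']; ring
      exact Nat.eq_of_mul_eq_mul_left (by omega) h8
    have h8 : E'.Coprime R := by
      rw [hE'] at hER
      exact Nat.Coprime.coprime_mul_left hER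
    obtain ⟨-, r, hr⟩ := key_pow h8 h7
    have hr0 : r ≠ 0 := by
      rintro rfl
      rw [hr] at hR2
      norm_num at hR2
    have h9 : F ^ 3 + (r ^ 2) ^ 3 = (F + 1) ^ 3 := by
      have : (r ^ 2) ^ 3 = R := by rw [hr]; ring
      rw [this, hR]
      ring
    exact fermatLastTheoremThree F (r ^ 2) (F + 1) (by omega) (by positivity) (by omega) h9
  · have hDQ := hcop hD
    obtain ⟨D', hD'⟩ : κ ∣ D := (hκQ Q hQ2).dvd_of_dvd_mul_right ⟨s ^ 6, h⟩
    have h7 : D' * Q = s ^ 6 := by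
      have h8 : κ * (D' * Q) = κ * s ^ 6 := by rw [← h, hD']; ring
      exact Nat.eq_of_mul_eq_mul_left hκ0 h8
    have h8 : D'.Coprime Q := by
      rw [hD'] at hDQ
      exact Nat.Coprime.coprime_mul_left hDQ
    obtain ⟨-, q, hq⟩ := key_pow h8 h7
    exact hns (q ^ 3) (by rw [hq]; ring)

/-- `c³ - 1` is neither `2 s⁶` nor `16 s⁶` -/
theorem cube_sub {c κ s : ℕ} (hκ : κ = 2 ∨ κ = 16) (hc : 1 < c) : c ^ 3 ≠ κ * s ^ 6 + 1 := by
  intro h
  obtain ⟨D, rfl⟩ : ∃ D, c = D + 1 := ⟨c - 1, by omega⟩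
  have h1 : D * (D ^ 2 + 3 * D + 3) = κ * s ^ 6 := by
    have : (D + 1) ^ 3 = D * (D ^ 2 + 3 * D + 3) + 1 := by ring
    omega
  have hodd : (D ^ 2 + 3 * D + 3) % 2 = 1 := by
    have : D % 2 = 0 ∨ D % 2 = 1 := by omega
    rcases this with h | h <;> simp [pow_two, Nat.add_mod, Nat.mul_mod, h]
  apply cubes_aux hκ hodd h1
  · intro h3
    have h6 : Nat.gcd D (D ^ 2 + 3 * D + 3) ∣ 3 := by
      have h7 := Nat.gcd_dvd_left D (D ^ 2 + 3 * D + 3)
      have h8 := Nat.gcd_dvd_right D (D ^ 2 + 3 * D + 3)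
      have h9 : Nat.gcd D (D ^ 2 + 3 * D + 3) ∣ D ^ 2 + 3 * D :=
        Dvd.dvd.add (dvd_pow h7 (by norm_num)) (Dvd.dvd.mul_left h7 3)
      exact (Nat.dvd_add_right h9).1 h8
    rcases (Nat.dvd_prime Nat.prime_three).1 h6 with h7 | h7
    · exact h7
    · exfalso
      apply h3
      rw [← h7]
      exact Nat.gcd_dvd_left _ _
  · intro q hq
    have h2 : D + 1 < q := by
      by_contra hcon
      have := Nat.pow_le_pow_left (not_lt.1 hcon) 2
      nlinarith
    have h3 : q < D + 2 := by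
      by_contra hcon
      have := Nat.pow_le_pow_left (not_lt.1 hcon) 2
      nlinarith
    omega
  · rintro ⟨E, rfl⟩
    exact ⟨E, E, rfl, by ring, by omega, Or.inl rfl⟩

/-- `c³ + 1` is neither `2 s⁶` nor `16 s⁶` -/
theorem cube_add {c κ s : ℕ} (hκ : κ = 2 ∨ κ = 16) (hc : 2 < c) : c ^ 3 + 1 ≠ κ * s ^ 6 := by
  intro h
  obtain ⟨b, rfl⟩ : ∃ b, c = b + 1 := ⟨c - 1, by omega⟩
  have h1 : (b + 2) * (b ^ 2 + b + 1) = κ * s ^ 6 := by
    rw [← h]
    ring
  have hodd : (b ^ 2 + b + 1) % 2 = 1 := by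
    have : b % 2 = 0 ∨ b % 2 = 1 := by omega
    rcases this with h | h <;> simp [pow_two, Nat.add_mod, Nat.mul_mod, h]
  apply cubes_aux hκ hodd h1
  · intro h3
    have h6 : Nat.gcd (b + 2) (b ^ 2 + b + 1) ∣ 3 := by
      have h7 := Nat.gcd_dvd_left (b + 2) (b ^ 2 + b + 1)
      have h8 := Nat.gcd_dvd_right (b + 2) (b ^ 2 + b + 1)
      have h9 : (b ^ 2 + b + 1) + (b + 2) = b * (b + 2) + 3 := by ring
      have h10 : Nat.gcd (b + 2) (b ^ 2 + b + 1) ∣ b * (b + 2) + 3 := by
        rw [← h9]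
        exact Dvd.dvd.add h8 h7
      exact (Nat.dvd_add_right (Dvd.dvd.mul_left h7 b)).1 h10
    rcases (Nat.dvd_prime Nat.prime_three).1 h6 with h7 | h7
    · exact h7
    · exfalso
      apply h3
      rw [← h7]
      exact Nat.gcd_dvd_left _ _
  · intro q hq
    have h2 : b < q := by
      by_contra hcon
      have := Nat.pow_le_pow_left (not_lt.1 hcon) 2
      nlinarith
    have h3 : q < b + 1 := by
      by_contra hcon
      have := Nat.pow_le_pow_left (not_lt.1 hcon) 2
      nlinarith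
    omega
  · rintro ⟨E, hE⟩
    obtain ⟨F, rfl⟩ : ∃ F, E = F + 1 := ⟨E - 1, by omega⟩
    have hb : b = 3 * F + 1 := by omega
    exact ⟨F + 1, F, hE, by rw [hb]; ring, by omega, Or.inr rfl⟩

/-- `2 (c⁶ - 1)` is not a prime times a sixth power -/
theorem sixth_case {c p w : ℕ} (hc : 1 < c) (hc1 : c % 2 = 1) (hp : p.Prime) :
    2 * c ^ 6 ≠ p * w ^ 6 + 2 := by
  intro h
  have hc3 : c ^ 3 % 2 = 1 := by
    have : c ^ 3 = c ^ 2 * c := by ring
    have h8 := sq_mod_eight_of_odd hc1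
    rw [this, Nat.mul_mod]
    have : c ^ 2 % 2 = 1 := by omega
    rw [this, hc1]
  obtain ⟨a, ha⟩ : ∃ a, c ^ 3 = 2 * a + 1 := ⟨c ^ 3 / 2, by omega⟩
  have h1 : 8 * (a * (a + 1)) = p * w ^ 6 := by
    have h2 : c ^ 6 = (c ^ 3) ^ 2 := by ring
    have h3 : 2 * (2 * a + 1) ^ 2 = 8 * (a * (a + 1)) + 2 := by ring
    rw [h2, ha, h3] at h
    omega
  have hw2 : 2 ∣ w := by
    by_contra hz2
    have hcop : Nat.Coprime 8 (w ^ 6) := by
      rw [Nat.coprime_comm, show (8 : ℕ) = 2 ^ 3 by norm_num]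
      apply Nat.Coprime.pow
      rw [Nat.coprime_comm, Nat.Prime.coprime_iff_not_dvd Nat.prime_two]
      exact hz2
    have h5 : 8 ∣ p := hcop.dvd_of_dvd_mul_right ⟨a * (a + 1), h1.symm⟩
    have h6 : (2 : ℕ) ∣ p := dvd_trans (by norm_num) h5
    rw [Nat.prime_dvd_prime_iff_eq Nat.prime_two hp] at h6
    omega
  obtain ⟨z, rfl⟩ := hw2
  have h2 : a * (a + 1) = 8 * (p * z ^ 6) := by
    have : p * (2 * z) ^ 6 = 8 * (8 * (p * z ^ 6)) := by ring
    omega
  have hc3' : 2 < c := by omega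
  rcases split_sixth (by simp) hp h2 with ⟨s, hs | hs⟩ | ⟨s, hs | hs⟩
  · exact cube_sub (κ := 2) (s := s) (Or.inl rfl) hc (by rw [ha, hs])
  · exact cube_sub (κ := 16) (s := s) (Or.inr rfl) hc (by rw [ha, hs]; ring)
  · exact cube_add (κ := 2) (s := s) (Or.inl rfl) hc3' (by rw [ha, ← hs]; ring)
  · exact cube_add (κ := 16) (s := s) (Or.inr rfl) hc3' (by
      rw [ha]
      have : 16 * s ^ 6 = 2 * (8 * s ^ 6) := by ring
      rw [this, ← hs]
      ring)

/-! ### The bound -/

theorem run_le_three {k n L g : ℕ} (hg : g = 4 ∨ g = 3) (hk : k % 4 = 2)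
    (hkp : ∀ p, p.Prime → p ∣ k → p ≠ 2 → p % g = 1) (h : Run k n L) : L ≤ 3 := by
  by_contra hL
  have hk3 : ¬ 3 ∣ k := by
    intro h3
    have := hkp 3 Nat.prime_three h3 (by norm_num)
    rcases hg with rfl | rfl <;> omega
  obtain ⟨hn, hrun⟩ := h
  have hgd : ∀ i < 4, (n + i).divisors.card % 4 = 2 := by
    intro i hi
    rw [hrun i (by omega), hk]
  have hi : ∃ i < 4, (n + i) % 4 = 2 := by
    have : n % 4 = 0 ∨ n % 4 = 1 ∨ n % 4 = 2 ∨ n % 4 = 3 := by omega
    rcases this with h | h | h | h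
    · exact ⟨2, by omega, by omega⟩
    · exact ⟨1, by omega, by omega⟩
    · exact ⟨0, by omega, by omega⟩
    · exact ⟨3, by omega, by omega⟩
  obtain ⟨i, hi4, hi2⟩ := hi
  have hno : ∀ j < 2, (n + j) % 4 = 2 → False := by
    intro j hj hj2
    apply hk3
    rw [← hrun (j + 2) (by omega)]
    have := three_dvd_card hj2 (hgd j (by omega))
    rwa [add_assoc] at this
  -- the main case: `y` and `y + 2` are good
  have hmain : ∀ y, 0 < y → (y + 2) % 4 = 2 → y.divisors.card = k → (y + 2).divisors.card = k →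
      False := by
    intro y hy hy2 h0 h2
    have hx : ∃ c, y + 2 = 2 * c ^ (if g = 4 then 4 else 6) := by
      apply eq_prime_mul_pow hg (by omega) Nat.prime_two (by rw [h2]; exact hk)
        (by rw [h2]; exact hkp)
      rw [factorization_eq_one Nat.prime_two (by omega) (by norm_num; omega)]
    obtain ⟨c, hc⟩ := hx
    obtain ⟨p, hp, hp1⟩ := exists_odd hy.ne' (by rw [h0]; omega)
    obtain ⟨w, hw⟩ := eq_prime_mul_pow hg hy.ne' hp (by rw [h0]; exact hk)
      (by rw [h0]; exact hkp) hp1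
    have hc1 : 1 < c := by
      by_contra hcon
      have : c = 0 ∨ c = 1 := by omega
      rcases this with rfl | rfl
      · rw [zero_pow (by split_ifs <;> norm_num)] at hc
        omega
      · rw [one_pow] at hc
        omega
    rcases hg with rfl | rfl
    · rw [if_pos rfl] at hc hw
      exact fourth_descent c hc1 p w hp (by rw [← hc, hw])
    · rw [if_neg (by norm_num)] at hc hw
      have hc2 : c % 2 = 1 := by
        by_contra hcon
        obtain ⟨d, rfl⟩ : 2 ∣ c := by omega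
        have : 2 * (2 * d) ^ 6 = 4 * (32 * d ^ 6) := by ring
        omega
      exact sixth_case hc1 hc2 hp (w := w) (by rw [← hc, hw])
  interval_cases i
  · exact hno 0 (by omega) hi2
  · exact hno 1 (by omega) hi2
  · exact hmain n hn hi2 (hrun 0 (by omega)) (hrun 2 (by omega))
  · exact hmain (n + 1) (by omega) hi2 (hrun 1 (by omega)) (hrun 3 (by omega))

end Pool.Agent.Lib.P685530
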