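import Pool.Agent.Lib.P685530.Basic
import Pool.Agent.Lib.P685530.Defs

/-!
# Runs of consecutive integers with `k` divisors, `k ≡ 2 (mod 4)`
-/

set_option autoImplicit false

namespace Pool.Agent.Lib.P685530

theorem exists_T {e o : ℕ} (h : e ^ 2 + o ^ 2 = 10 * (e * o) + 1) :
    ∃ T : ℕ, T ^ 2 = 24 * e ^ 2 + 1 := by
  refine ⟨(5 * (e : ℤ) - o).natAbs, ?_⟩
  zify at h ⊢
  rw [sq_abs]
  linear_combination h

theorem coprime_of_inv {e o : ℕ} (h : e ^ 2 + o ^ 2 = 10 * (e * o) + 1) : e.Coprime o := by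
  have h6 : Nat.gcd e o ∣ 1 := by
    have h7 : Nat.gcd e o ∣ e ^ 2 + o ^ 2 := Dvd.dvd.add
      (dvd_pow (Nat.gcd_dvd_left e o) (by norm_num)) (dvd_pow (Nat.gcd_dvd_right e o) (by norm_num))
    have h8 : Nat.gcd e o ∣ 10 * (e * o) :=
      Dvd.dvd.mul_left (Dvd.dvd.mul_right (Nat.gcd_dvd_left e o) o) 10
    rw [h] at h7
    exact (Nat.dvd_add_right h8).1 h7
  exact Nat.dvd_one.1 h6

/-- `24 e o` is not a prime times a square, `e` even and `o` odd -/
theorem not_PS_aux {e o : ℕ} (he : 0 < e) (ho : 0 < o) (he2 : e % 2 = 0) (ho2 : o % 2 = 1)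
    (h : e ^ 2 + o ^ 2 = 10 * (e * o) + 1) : ¬ PS (24 * (e * o)) := by
  intro hPS
  obtain ⟨T, hT⟩ := exists_T h
  have h' : o ^ 2 + e ^ 2 = 10 * (o * e) + 1 := by
    rw [add_comm, h, mul_comm e o]
  obtain ⟨S, hS⟩ := exists_T h'
  have hcop := coprime_of_inv h'
  rcases pell_split hT he with ⟨q, z, hz, h1, h2⟩ | ⟨p, q, hp, h1, h2, h3⟩
  · have h4 : 24 * (e * o) = 4 * (4 * (q * (3 * o * z))) := by rw [h1]; ring
    rw [h4] at hPS
    have h5 := hPS.of_four.of_four
    have h6 : o.Coprime (q * z) := by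
      rw [h1] at hcop
      exact Nat.Coprime.coprime_mul_left_right hcop
    exact main_descent z hz q o 3 h2 ho2 h6 (not_three_six o ho S hS).1 (Or.inl rfl) h5
  · have := (odd_case h2).1
    rw [← h1] at this
    omega

/-- from `3 b² = 2 a² + 1`, `a > 1`: `3 (b² - 1)` is not a prime times a square -/
theorem not_PS {a b : ℕ} (h : 3 * b ^ 2 = 2 * a ^ 2 + 1) (ha : 1 < a) {N : ℕ}
    (hN : N + 3 = 3 * b ^ 2) : ¬ PS N := by
  intro hPS
  have hb1 : b % 2 = 1 := odd_of_sq_odd (by omega)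
  have hb8 := sq_mod_eight_of_odd hb1
  have ha1 : a % 2 = 1 := by
    by_contra hp
    obtain ⟨z, rfl⟩ : ∃ z, a = 2 * z := ⟨a / 2, by omega⟩
    have : 3 * b ^ 2 = 8 * z ^ 2 + 1 := by rw [h]; ring
    omega
  have hab : b < a := by
    by_contra hcon
    have : a ^ 2 ≤ b ^ 2 := Nat.pow_le_pow_left (by omega) 2
    have : 1 < a ^ 2 := by nlinarith
    omega
  obtain ⟨u, hu⟩ : ∃ u, a = b + 2 * u := ⟨(a - b) / 2, by omega⟩
  have hu0 : 0 < u := by omega
  have hinv : u ^ 2 + (b + u) ^ 2 = 10 * (u * (b + u)) + 1 := by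
    rw [hu] at h
    zify at h ⊢
    linear_combination h
  have hNv : N = 24 * (u * (b + u)) := by
    zify at hN hinv ⊢
    linear_combination hN + 3 * hinv
  rcases Nat.mod_two_eq_zero_or_one u with hu2 | hu2
  · exact not_PS_aux hu0 (by omega) hu2 (by omega) hinv (by rw [← hNv]; exact hPS)
  · apply not_PS_aux (e := b + u) (o := u) (by omega) hu0 (by omega) hu2 (by
      rw [add_comm, hinv, mul_comm u])
    rw [mul_comm (b + u) u, ← hNv]
    exact hPS

/-! ### The three facts on good integers -/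

/-- the number of divisors is `k ≡ 2 (mod 4)` and the integer is `2 (mod 4)` -/
theorem eq_two_mul_sq {x : ℕ} (hx : x % 4 = 2) (h : x.divisors.card % 4 = 2) :
    ∃ a, x = 2 * a ^ 2 ∧ a % 2 = 1 := by
  obtain ⟨a, ha⟩ := eq_mul_sq_of_exact Nat.prime_two (by omega) (by norm_num; omega) h
  refine ⟨a, ha, ?_⟩
  by_contra h2
  obtain ⟨z, rfl⟩ : ∃ z, a = 2 * z := ⟨a / 2, by omega⟩
  have : 2 * (2 * z) ^ 2 = 4 * (2 * z ^ 2) := by ring
  omega

/-- two good integers `≡ 2 (mod 4)` cannot differ by four -/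
theorem not_four_apart {x : ℕ} (hx : x % 4 = 2) (h : x.divisors.card % 4 = 2)
    (h' : (x + 4).divisors.card % 4 = 2) : False := by
  obtain ⟨a, ha, ha1⟩ := eq_two_mul_sq hx h
  obtain ⟨b, hb, hb1⟩ := eq_two_mul_sq (x := x + 4) (by omega) h'
  have ha8 := sq_mod_eight_of_odd ha1
  have hb8 := sq_mod_eight_of_odd hb1
  omega

/-- if `y`, `y + 2 ≡ 2 (mod 4)` and `y + 3` are good, then `y + 2` is a multiple of three -/
theorem three_dvd {y : ℕ} (hy0 : 0 < y) (hx : (y + 2) % 4 = 2) (h0 : y.divisors.card % 4 = 2)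
    (h2 : (y + 2).divisors.card % 4 = 2) (h3 : (y + 3).divisors.card % 4 = 2) :
    3 ∣ y + 2 := by
  obtain ⟨a, ha, ha1⟩ := eq_two_mul_sq hx h2
  have ha1' : 1 < a := by
    by_contra hcon
    have : a = 1 := by omega
    subst this
    omega
  by_contra h3a
  have haq : a ^ 2 % 3 = 1 := by
    rcases sq_mod_three a with h | h
    · exfalso
      omega
    · exact h
  obtain ⟨j, hj⟩ : 3 ∣ y := by omega
  by_cases hj3 : 3 ∣ j
  · -- `y + 3` is exactly divisible by three
    obtain ⟨b, hb⟩ := eq_mul_sq_of_exact (n := y + 3) Nat.prime_three (by omega)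
      (by norm_num; omega) h3
    obtain ⟨p, r, hp, hr⟩ := exists_prime_mul_sq hy0.ne' h0
    exact not_PS (a := a) (b := b) (by omega) ha1' (N := y) hb ⟨p, r, hp, hr⟩
  · obtain ⟨d, hd⟩ := eq_mul_sq_of_exact (n := y) Nat.prime_three ⟨j, hj⟩
      (by norm_num; omega) h0
    have h4 : y + 3 = 3 * (d ^ 2 + 1) := by omega
    have h5 := sq_mod_three d
    obtain ⟨e, he⟩ := eq_mul_sq_of_exact (n := y + 3) Nat.prime_three ⟨_, h4⟩
      (by norm_num; omega) h3
    have h6 : e ^ 2 = d ^ 2 + 1 := by omega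
    have h7 : d < e := by
      by_contra hcon
      have := Nat.pow_le_pow_left (not_lt.1 hcon) 2
      omega
    have h8 : 0 < d := by
      rcases Nat.eq_zero_or_pos d with rfl | h
      · simp at hd
        omega
      · exact h
    nlinarith

/-- if `x ≡ 2 (mod 4)` is good and a multiple of three, `x + 3` is not good -/
theorem not_add_three {x : ℕ} (hx : x % 4 = 2) (h3 : 3 ∣ x) (h : x.divisors.card % 4 = 2)
    (h' : (x + 3).divisors.card % 4 = 2) : False := by
  obtain ⟨a, ha, ha1⟩ := eq_two_mul_sq hx h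
  have h3a : 3 ∣ a := by
    have : 3 ∣ a ^ 2 := by omega
    exact Nat.prime_three.dvd_of_dvd_pow this
  obtain ⟨c, rfl⟩ := h3a
  have hc1 : c % 2 = 1 := by omega
  have hc8 := sq_mod_eight_of_odd hc1
  have h4 : x + 3 = 3 * (6 * c ^ 2 + 1) := by rw [ha]; ring
  obtain ⟨e, he⟩ := eq_mul_sq_of_exact (n := x + 3) Nat.prime_three ⟨_, h4⟩
    (by norm_num; omega) h'
  have h6 : e ^ 2 = 6 * c ^ 2 + 1 := by omega
  have he1 : e % 2 = 1 := odd_of_sq_odd (by omega)
  have he8 := sq_mod_eight_of_odd he1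
  omega

/-- if `y + 3 ≡ 2 (mod 4)` is good and a multiple of three, `y` is not good -/
theorem not_sub_three {y : ℕ} (hx : (y + 3) % 4 = 2) (h3 : 3 ∣ y + 3)
    (h : (y + 3).divisors.card % 4 = 2) (h' : y.divisors.card % 4 = 2) : False := by
  obtain ⟨a, ha, ha1⟩ := eq_two_mul_sq hx h
  have h3a : 3 ∣ a := by
    have : 3 ∣ a ^ 2 := by omega
    exact Nat.prime_three.dvd_of_dvd_pow this
  obtain ⟨c, rfl⟩ := h3a
  have h4 : y + 3 = 3 * (6 * c ^ 2) := by rw [ha]; ring
  obtain ⟨e, he⟩ := eq_mul_sq_of_exact (n := y) Nat.prime_three (by omega)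
    (by norm_num; omega) h'
  have h6 : e ^ 2 + 1 = 6 * c ^ 2 := by omega
  have := sq_mod_three e
  omega

/-- if `x ≡ 2 (mod 4)` is good and `x + 2` has `k` divisors, then `3 ∣ k` -/
theorem three_dvd_card {x : ℕ} (hx : x % 4 = 2) (h : x.divisors.card % 4 = 2) :
    3 ∣ (x + 2).divisors.card := by
  obtain ⟨a, ha, ha1⟩ := eq_two_mul_sq hx h
  have ha8 := sq_mod_eight_of_odd ha1
  have h1 : (x + 2).factorization 2 = 2 := by
    have h2 : 2 ≤ (x + 2).factorization 2 := by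
      rw [← Nat.prime_two.pow_dvd_iff_le_factorization (by omega)]
      norm_num
      omega
    have h3 : ¬ 3 ≤ (x + 2).factorization 2 := by
      rw [← Nat.prime_two.pow_dvd_iff_le_factorization (by omega)]
      norm_num
      omega
    omega
  have h2 := succ_dvd_card (n := x + 2) (q := 2) (by omega)
  rwa [h1] at h2

/-! ### The bounds -/

theorem run_le_five {k n L : ℕ} (hk : k % 4 = 2) (h : Run k n L) : L ≤ 5 := by
  by_contra hL
  obtain ⟨hn, hrun⟩ := h
  have hg : ∀ i < 6, (n + i).divisors.card % 4 = 2 := by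
    intro i hi
    rw [hrun i (by omega), hk]
  have hi : ∃ i < 4, (n + i) % 4 = 2 := by
    have : n % 4 = 0 ∨ n % 4 = 1 ∨ n % 4 = 2 ∨ n % 4 = 3 := by omega
    rcases this with h | h | h | h
    · exact ⟨2, by omega, by omega⟩
    · exact ⟨1, by omega, by omega⟩
    · exact ⟨0, by omega, by omega⟩
    · exact ⟨3, by omega, by omega⟩
  obtain ⟨i, hi4, hi2⟩ := hi
  interval_cases i
  · exact not_four_apart hi2 (hg 0 (by omega)) (hg 4 (by omega))
  · exact not_four_apart hi2 (hg 1 (by omega)) (hg 5 (by omega))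
  · have h3 : 3 ∣ n + 2 := three_dvd hn hi2 (hg 0 (by omega)) (hg 2 (by omega)) (hg 3 (by omega))
    exact not_add_three hi2 h3 (hg 2 (by omega)) (hg 5 (by omega))
  · have h3 : 3 ∣ n + 1 + 2 := three_dvd (y := n + 1) (by omega) hi2 (hg 1 (by omega))
      (hg 3 (by omega)) (hg 4 (by omega))
    exact not_sub_three (y := n) hi2 h3 (hg 3 (by omega)) (hg 0 (by omega))

theorem run_le_four {k n L : ℕ} (hk : k % 4 = 2) (hk3 : ¬ 3 ∣ k) (h : Run k n L) : L ≤ 4 := by
  by_contra hL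
  obtain ⟨hn, hrun⟩ := h
  have hg : ∀ i < 5, (n + i).divisors.card % 4 = 2 := by
    intro i hi
    rw [hrun i (by omega), hk]
  have hi : ∃ i < 4, (n + i) % 4 = 2 := by
    have : n % 4 = 0 ∨ n % 4 = 1 ∨ n % 4 = 2 ∨ n % 4 = 3 := by omega
    rcases this with h | h | h | h
    · exact ⟨2, by omega, by omega⟩
    · exact ⟨1, by omega, by omega⟩
    · exact ⟨0, by omega, by omega⟩
    · exact ⟨3, by omega, by omega⟩
  obtain ⟨i, hi4, hi2⟩ := hi
  have hno : ∀ j < 3, (n + j) % 4 = 2 → False := by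
    intro j hj hj2
    apply hk3
    rw [← hrun (j + 2) (by omega)]
    have := three_dvd_card hj2 (hg j (by omega))
    rwa [add_assoc] at this
  interval_cases i
  · exact hno 0 (by omega) hi2
  · exact hno 1 (by omega) hi2
  · exact hno 2 (by omega) hi2
  · have h3 : 3 ∣ n + 1 + 2 := three_dvd (y := n + 1) (by omega) hi2 (hg 1 (by omega))
      (hg 3 (by omega)) (hg 4 (by omega))
    exact not_sub_three (y := n) hi2 h3 (hg 3 (by omega)) (hg 0 (by omega))

end Pool.Agent.Lib.P685530
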