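import Pool.Agent.Lib.P685530.Basic
import Pool.Agent.Lib.P685530.Max

/-!
# Bounds for `M(k)` from the integers `N` whose number of divisors does not divide `k`
(MP_685530_nt)

* `exp_sum_zero`: a sum of `D` exponentials which vanishes at `D` consecutive integers vanishes at
  all later ones.
* `exists_avoid`: among `2 ^ m` consecutive terms of a progression one is divisible by none of `m`
  given primes (Kanold's bound, proof of Crittenden and Vanden Eynden).
* `run_lt_of_not_dvd`, `run_lt_of_odd`: the two bounds.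
-/

set_option autoImplicit false

namespace Pool.Agent.Lib.P685530

open Finset

theorem exp_sum_zero {ι : Type*} (T : Finset ι) (c z : ι → ℂ) (N : ℕ)
    (h : ∀ w, N ≤ w → w < N + T.card → ∑ j ∈ T, c j * z j ^ w = 0) :
    ∀ w, N ≤ w → ∑ j ∈ T, c j * z j ^ w = 0 := by
  classical
  set q : Polynomial ℂ := ∏ j ∈ T, (Polynomial.X - Polynomial.C (z j)) with hq
  have hdeg : q.natDegree = T.card := by
    rw [hq]
    exact Polynomial.natDegree_finsetProd_X_sub_C_eq_card T z
  have hmon : q.Monic := Polynomial.monic_prod_X_sub_C z T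
  have hlead : q.coeff T.card = 1 := by
    rw [← hdeg]
    exact hmon.coeff_natDegree
  have key : ∀ w, ∑ i ∈ range (T.card + 1), q.coeff i * ∑ j ∈ T, c j * z j ^ (w + i) = 0 := by
    intro w
    have h1 : ∑ i ∈ range (T.card + 1), q.coeff i * ∑ j ∈ T, c j * z j ^ (w + i)
        = ∑ j ∈ T, c j * z j ^ w * q.eval (z j) := by
      simp_rw [Finset.mul_sum]
      rw [Finset.sum_comm]
      refine Finset.sum_congr rfl fun j _ => ?_
      rw [Polynomial.eval_eq_sum_range, hdeg, Finset.mul_sum]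
      refine Finset.sum_congr rfl fun i _ => ?_
      rw [pow_add]
      ring
    rw [h1]
    refine Finset.sum_eq_zero fun j hj => ?_
    have : q.eval (z j) = 0 := by
      rw [hq, Polynomial.eval_prod]
      exact Finset.prod_eq_zero hj (by simp)
    rw [this, mul_zero]
  intro w
  induction w using Nat.strong_induction_on with
  | _ w ih =>
    intro hw
    by_cases hlt : w < N + T.card
    · exact h w hw hlt
    · push Not at hlt
      obtain ⟨v, rfl⟩ : ∃ v, w = v + T.card := ⟨w - T.card, by omega⟩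
      have hv : N ≤ v := by omega
      have hk := key v
      rw [Finset.sum_range_succ, hlead, one_mul] at hk
      have h0 : ∑ i ∈ range T.card, q.coeff i * ∑ j ∈ T, c j * z j ^ (v + i) = 0 := by
        refine Finset.sum_eq_zero fun i hi => ?_
        rw [ih (v + i) (by have := Finset.mem_range.1 hi; omega) (by omega), mul_zero]
      rwa [h0, zero_add] at hk

/-- Among `2 ^ m` consecutive values of `a w + b` one is divisible by none of `m` given primes,
provided some later value is. -/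
theorem exists_avoid (S : Finset ℕ) (hS : ∀ p ∈ S, p.Prime) (a b w0 w1 : ℕ) (hw : w0 ≤ w1)
    (hav : ∀ p ∈ S, ¬ p ∣ a * w1 + b) :
    ∃ w, w0 ≤ w ∧ w < w0 + 2 ^ S.card ∧ ∀ p ∈ S, ¬ p ∣ a * w + b := by
  classical
  by_contra hcon
  push Not at hcon
  set ζ : ℕ → ℂ := fun p => Complex.exp (2 * Real.pi * Complex.I / p) with hζ
  have hprim : ∀ p ∈ S, IsPrimitiveRoot (ζ p) p := fun p hp =>
    Complex.isPrimitiveRoot_exp p (hS p hp).ne_zero
  have hexp : ∀ w, ∏ p ∈ S, (-(ζ p) ^ (a * w + b) + 1)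
      = ∑ t ∈ S.powerset, (∏ p ∈ t, -(ζ p) ^ b) * (∏ p ∈ t, (ζ p) ^ a) ^ w := by
    intro w
    rw [Finset.prod_add]
    refine Finset.sum_congr rfl fun t _ => ?_
    rw [Finset.prod_const_one, mul_one, ← Finset.prod_pow, ← Finset.prod_mul_distrib]
    refine Finset.prod_congr rfl fun p _ => ?_
    rw [← pow_mul, pow_add]
    ring
  have hvan : ∀ w, w0 ≤ w → w < w0 + S.powerset.card →
      ∑ t ∈ S.powerset, (∏ p ∈ t, -(ζ p) ^ b) * (∏ p ∈ t, (ζ p) ^ a) ^ w = 0 := by
    intro w h1 h2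
    rw [Finset.card_powerset] at h2
    obtain ⟨p, hp, hd⟩ := hcon w h1 h2
    rw [← hexp w]
    refine Finset.prod_eq_zero hp ?_
    rw [((hprim p hp).pow_eq_one_iff_dvd _).2 hd]
    ring
  have h0 := exp_sum_zero S.powerset _ _ w0 hvan w1 hw
  rw [← hexp, Finset.prod_eq_zero_iff] at h0
  obtain ⟨p, hp, h0⟩ := h0
  have h1 : (ζ p) ^ (a * w1 + b) = 1 := by
    linear_combination -h0
  exact hav p hp (((hprim p hp).pow_eq_one_iff_dvd _).1 h1)

/-- The first multiple `N u₀` of `N` at or after `n`. -/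
theorem exists_first {n N : ℕ} (hN0 : 0 < N) : ∃ u0, n ≤ N * u0 ∧ N * u0 < n + N := by
  refine ⟨(n + N - 1) / N, ?_, ?_⟩
  · have := Nat.lt_mul_div_succ (n + N - 1) hN0
    rw [Nat.mul_succ] at this
    omega
  · have := Nat.mul_div_le (n + N - 1) N
    omega

/-- If the number of divisors of `N` does not divide `k`, runs are shorter than `2 ^ ω(N) * N`. -/
theorem run_lt_of_not_dvd {k N n L : ℕ} (hN : N ≠ 0) (hd : ¬ N.divisors.card ∣ k)
    (h : Run k n L) : L < 2 ^ N.primeFactors.card * N := by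
  by_contra hcon
  push Not at hcon
  have hN0 : 0 < N := Nat.pos_of_ne_zero hN
  obtain ⟨u0, hu1, hu2⟩ := exists_first (n := n) hN0
  have hprime : ∀ p ∈ N.primeFactors, p.Prime := fun p hp => Nat.prime_of_mem_primeFactors hp
  have hQ : 0 < ∏ p ∈ N.primeFactors, p := Finset.prod_pos fun p hp => (hprime p hp).pos
  obtain ⟨u, hw1, hw2, hw3⟩ := exists_avoid N.primeFactors hprime 1 0 u0
    (u0 * (∏ p ∈ N.primeFactors, p) + 1)
    (by have := Nat.le_mul_of_pos_right u0 hQ; omega)
    (fun p hp hdv => by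
      rw [one_mul, add_zero] at hdv
      have h3 : p ∣ u0 * ∏ p ∈ N.primeFactors, p :=
        Dvd.dvd.mul_left (Finset.dvd_prod_of_mem _ hp) _
      exact (hprime p hp).one_lt.ne' (Nat.dvd_one.1 ((Nat.dvd_add_right h3).1 hdv)))
  set D := 2 ^ N.primeFactors.card with hD
  have hNu1 : n ≤ N * u := hu1.trans (Nat.mul_le_mul_left N hw1)
  have hNu2 : N * u < n + L := by
    have h4 : N * (u + 1) ≤ N * (u0 + D) := Nat.mul_le_mul_left N hw2
    have h5 : N * (u + 1) = N * u + N := by ring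
    have h6' : N * (u0 + D) = N * u0 + D * N := by ring
    omega
  have hrun : (N * u).divisors.card = k := by
    have := h.2 (N * u - n) (by omega)
    rwa [Nat.add_sub_cancel' hNu1] at this
  have hcop : N.Coprime u := by
    rw [Nat.coprime_iff_gcd_eq_one]
    by_contra hg
    obtain ⟨p, hp, hpd⟩ := Nat.exists_prime_and_dvd hg
    have hpN : p ∣ N := hpd.trans (Nat.gcd_dvd_left _ _)
    have hpu : p ∣ u := hpd.trans (Nat.gcd_dvd_right _ _)
    exact hw3 p (Nat.mem_primeFactors.2 ⟨hp, hpN, hN⟩) (by rwa [one_mul, add_zero])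
  rw [hcop.card_divisors_mul] at hrun
  exact hd ⟨_, hrun.symm⟩

theorem sq_of_odd_card {u : ℕ} (hu : u ≠ 0) (h : ¬ 2 ∣ u.divisors.card) : ∃ c, u = c ^ 2 := by
  refine exists_pow hu fun p => ?_
  by_contra hp
  have h1 : 2 ∣ u.factorization p + 1 := by omega
  exact h (h1.trans (succ_dvd_card hu))

/-- If the number of divisors of `N` divides `k` with an odd quotient and `6 ∣ N`, runs are shorter
than `3 * 2 ^ (ω(N) - 1) * N`. -/
theorem run_lt_of_odd {k N n L : ℕ} (hN : N ≠ 0) (h6 : 6 ∣ N)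
    (hodd' : Odd (k / N.divisors.card)) (h : Run k n L) :
    L < 3 * 2 ^ (N.primeFactors.card - 1) * N := by
  classical
  by_contra hcon
  push Not at hcon
  have hN0 : 0 < N := Nat.pos_of_ne_zero hN
  set S : Finset ℕ := (N.primeFactors.erase 2).erase 3 with hSdef
  have h2 : 2 ∈ N.primeFactors :=
    Nat.mem_primeFactors.2 ⟨Nat.prime_two, (by norm_num : (2 : ℕ) ∣ 6).trans h6, hN⟩
  have h3 : 3 ∈ N.primeFactors.erase 2 :=
    Finset.mem_erase.2 ⟨by norm_num, Nat.mem_primeFactors.2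
      ⟨Nat.prime_three, (by norm_num : (3 : ℕ) ∣ 6).trans h6, hN⟩⟩
  have hc1 : (N.primeFactors.erase 2).card = N.primeFactors.card - 1 := Finset.card_erase_of_mem h2
  have hc2 : S.card = N.primeFactors.card - 1 - 1 := by
    rw [hSdef, Finset.card_erase_of_mem h3, hc1]
  have hpos : 0 < N.primeFactors.card - 1 := by
    rw [← hc1]
    exact Finset.card_pos.2 ⟨3, h3⟩
  have hD : 3 * 2 ^ (N.primeFactors.card - 1) = 6 * 2 ^ S.card := by
    rw [hc2]
    obtain ⟨m, hm⟩ : ∃ m, N.primeFactors.card - 1 = m + 1 := ⟨N.primeFactors.card - 1 - 1, by omega⟩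
    rw [hm, Nat.add_sub_cancel, pow_succ]
    ring
  rw [hD] at hcon
  set D := 2 ^ S.card with hDdef
  obtain ⟨u0, hu1, hu2⟩ := exists_first (n := n) hN0
  have hprime : ∀ p ∈ S, p.Prime := fun p hp =>
    Nat.prime_of_mem_primeFactors (Finset.mem_of_mem_erase (Finset.mem_of_mem_erase hp))
  have hQ : 0 < ∏ p ∈ S, p := Finset.prod_pos fun p hp => (hprime p hp).pos
  obtain ⟨w, hw1, hw2, hw3⟩ := exists_avoid S hprime 6 5 (u0 / 6)
    ((u0 / 6 + 1) * (∏ p ∈ S, p) - 1)
    (by
      have : u0 / 6 + 1 ≤ (u0 / 6 + 1) * ∏ p ∈ S, p := Nat.le_mul_of_pos_right _ hQ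
      omega)
    (fun p hp hdv => by
      have h3' : p ∣ (u0 / 6 + 1) * ∏ p ∈ S, p := Dvd.dvd.mul_left (Finset.dvd_prod_of_mem _ hp) _
      have h4 : 6 * ((u0 / 6 + 1) * (∏ p ∈ S, p) - 1) + 5 + 1
          = 6 * ((u0 / 6 + 1) * ∏ p ∈ S, p) := by
        have : 0 < (u0 / 6 + 1) * ∏ p ∈ S, p := Nat.mul_pos (Nat.succ_pos _) hQ
        omega
      have h5 : p ∣ 6 * ((u0 / 6 + 1) * (∏ p ∈ S, p) - 1) + 5 + 1 := by
        rw [h4]
        exact Dvd.dvd.mul_left h3' _
      exact (hprime p hp).one_lt.ne' (Nat.dvd_one.1 ((Nat.dvd_add_right hdv).1 h5)))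
  rw [← hDdef] at hw2
  set u := 6 * w + 5 with hu
  have hlow : u0 ≤ u := by omega
  have hhigh : u + 1 ≤ u0 + 6 * D := by omega
  have hNu1 : n ≤ N * u := hu1.trans (Nat.mul_le_mul_left N hlow)
  have hNu2 : N * u < n + L := by
    have h4 : N * (u + 1) ≤ N * (u0 + 6 * D) := Nat.mul_le_mul_left N hhigh
    have h5 : N * (u + 1) = N * u + N := by ring
    have h6' : N * (u0 + 6 * D) = N * u0 + 6 * D * N := by ring
    omega
  have hrun : (N * u).divisors.card = k := by
    have := h.2 (N * u - n) (by omega)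
    rwa [Nat.add_sub_cancel' hNu1] at this
  have hcop : N.Coprime u := by
    rw [Nat.coprime_iff_gcd_eq_one]
    by_contra hg
    obtain ⟨p, hp, hpd⟩ := Nat.exists_prime_and_dvd hg
    have hpN : p ∣ N := hpd.trans (Nat.gcd_dvd_left _ _)
    have hpu : p ∣ u := hpd.trans (Nat.gcd_dvd_right _ _)
    by_cases hp2 : p = 2
    · subst hp2; omega
    by_cases hp3 : p = 3
    · subst hp3; omega
    exact hw3 p (Finset.mem_erase.2 ⟨hp3, Finset.mem_erase.2 ⟨hp2, Nat.mem_primeFactors.2
      ⟨hp, hpN, hN⟩⟩⟩) hpu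
  have hune : u ≠ 0 := by omega
  rw [hcop.card_divisors_mul] at hrun
  have hNd : 0 < N.divisors.card := Finset.card_pos.2 ⟨1, Nat.one_mem_divisors.2 hN⟩
  have hq : k / N.divisors.card = u.divisors.card := by
    rw [← hrun, Nat.mul_div_cancel_left _ hNd]
  rw [hq] at hodd'
  have hodd : ¬ 2 ∣ u.divisors.card := fun hd => by
    obtain ⟨r, hr⟩ := hodd'
    omega
  obtain ⟨c, hc⟩ := sq_of_odd_card hune hodd
  have h7 : c ^ 2 % 3 = 2 := by omega
  have h8 : c ^ 2 % 3 = (c % 3) ^ 2 % 3 := Nat.pow_mod c 2 3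
  have h9 : c % 3 < 3 := Nat.mod_lt _ (by norm_num)
  interval_cases hc3 : c % 3 <;> simp_all

/-- For `k ≥ 1` the number of divisors of `2 ^ k` is `k + 1`, which does not divide `k`. -/
theorem exists_card_not_dvd {k : ℕ} (hk : 0 < k) : ¬ (2 ^ k).divisors.card ∣ k := by
  rw [Nat.divisors_prime_pow Nat.prime_two, Finset.card_map, Finset.card_range]
  intro h
  have := Nat.le_of_dvd hk h
  omega

end Pool.Agent.Lib.P685530
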